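import Pool.Agent.V11212.Tor.Defs
import Pool.Agent.V11212.Col.Vanish

/-!
The abstract computation: a complex with complete `D`-skeleton, all cones over the `D`-simplices
outside `R`, and a family of further `(D+1)`-simplices presenting the group `G`.
-/

set_option autoImplicit false

namespace Pool.Agent.V11212.Tor

open Finset Pool.Agent.V11212.HC Pool.Agent.V11212.Col

section
variable {V : Type} [Fintype V] [LinearOrder V] {k : Type} [CommRing k]

theorem exists_o (V : Type) [Fintype V] [LinearOrder V] :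
    ∃ o : V → ℕ, Function.Injective o ∧ ∀ u v, o u < o v ↔ u < v := by
  let e := (monoEquivOfFin V rfl).symm
  exact ⟨fun v => (e v).val, fun u v h => e.injective (Fin.ext h), fun u v => by
    rw [← Fin.lt_def]; exact e.lt_iff_lt⟩

/-- the position map -/
noncomputable def oo (V : Type) [Fintype V] [LinearOrder V] : V → ℕ := (exists_o V).choose

theorem oo_inj : Function.Injective (oo V) := (exists_o V).choose_spec.1
theorem oo_lt (u v : V) : oo V u < oo V v ↔ u < v := (exists_o V).choose_spec.2 u v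

theorem sg_eq (t : Finset V) (v : V) :
    sg k (oo V) t v = (-1) ^ (t.filter (fun u => u < v)).card := by
  rw [sg]
  congr 2
  ext u
  simp [oo_lt]

theorem bdry_eq (c : Finset V → k) : bdry c = bd (oo V) c := by
  funext t
  rw [bdry, bd]
  refine Finset.sum_congr rfl fun v _ => ?_
  rw [sg_eq]

/-- the cone with apex `v` -/
noncomputable def cn (v : V) (c : Finset V → k) : Finset V → k := cone (oo V) v c

theorem cn_formula (v : V) (c : Finset V → k) : bdry (cn v c) + cn v (bdry c) = c := by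
  funext s
  rw [Pi.add_apply, bdry_eq, bdry_eq]
  exact cone_formula oo_inj v c s

theorem bdry_bdry (c : Finset V → k) : bdry (bdry c) = 0 := by
  rw [bdry_eq, bdry_eq]
  exact bd_bd oo_inj c

theorem cn_apply (v : V) (c : Finset V → k) (s : Finset V) :
    cn v c s = if v ∈ s then (-1) ^ ((s.erase v).filter (fun u => u < v)).card * c (s.erase v)
      else 0 := by
  rw [cn, cone]
  by_cases h : v ∈ s
  · rw [if_pos h, if_pos h, sg_eq]
  · rw [if_neg h, if_neg h]

theorem bdry_smul (a : k) (c : Finset V → k) : bdry (a • c) = a • bdry c := by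
  funext t
  simp only [bdry, Pi.smul_apply, smul_eq_mul]
  rw [Finset.mul_sum]
  refine Finset.sum_congr rfl fun v _ => ?_
  split_ifs
  · simp
  · ring

theorem cn_smul (v : V) (a : k) (c : Finset V → k) : cn v (a • c) = a • cn v c := by
  funext s
  simp only [cn_apply, Pi.smul_apply, smul_eq_mul]
  split_ifs
  · ring
  · simp

theorem cn_add (v : V) (c c' : Finset V → k) : cn v (c + c') = cn v c + cn v c' := by
  funext s
  rw [Pi.add_apply, cn_apply, cn_apply, cn_apply]
  split_ifs
  · rw [Pi.add_apply]; ring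
  · simp

theorem cn_zero (v : V) : cn v (0 : Finset V → k) = 0 := by
  funext s
  rw [cn_apply]
  split_ifs <;> simp

/-- basis functions -/
def dlt (k : Type) [CommRing k] (s : Finset V) : Finset V → k := fun t => if t = s then 1 else 0

theorem eq_sum (c : Finset V → k) : c = ∑ s, c s • dlt k s := by
  funext t
  rw [Finset.sum_apply]
  simp [dlt]

theorem cn_sum {ι : Type} (v : V) (S : Finset ι) (f : ι → Finset V → k) :
    cn v (∑ i ∈ S, f i) = ∑ i ∈ S, cn v (f i) := by
  classical
  induction S using Finset.induction_on with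
  | empty => simp [cn_zero]
  | insert a S ha ih => rw [Finset.sum_insert ha, Finset.sum_insert ha, cn_add, ih]

theorem bdry_sum {ι : Type} (S : Finset ι) (f : ι → Finset V → k) :
    bdry (∑ i ∈ S, f i) = ∑ i ∈ S, bdry (f i) := by
  classical
  induction S using Finset.induction_on with
  | empty => simp [bdry_zero]
  | insert a S ha ih => rw [Finset.sum_insert ha, Finset.sum_insert ha, bdry_add, ih]

/-- the relation given by a simplex -/
def Rel {M : Type} [AddCommGroup M] (h : Finset V → M) (s : Finset V) : M :=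
  ∑ v ∈ s, ((-1 : ℤ) ^ ((s.erase v).filter (fun u => u < v)).card) • h (s.erase v)

theorem sum_bdry {M : Type} [AddCommGroup M] (h : Finset V → M) (w : Finset V → ℤ) :
    ∑ t, bdry w t • h t = ∑ s, w s • Rel h s := by
  classical
  have e1 : ∀ t, bdry w t • h t = ∑ v, if v ∈ t then 0 else
      (((-1 : ℤ) ^ (t.filter (fun u => u < v)).card * w (insert v t)) • h t) := by
    intro t
    rw [bdry, Finset.sum_smul]
    refine Finset.sum_congr rfl fun v _ => ?_
    split_ifs
    · simp
    · rfl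
  have e2 : ∀ s, w s • Rel h s = ∑ v, if v ∈ s then
      ((w s * (-1 : ℤ) ^ ((s.erase v).filter (fun u => u < v)).card) • h (s.erase v)) else 0 := by
    intro s
    rw [Rel, Finset.smul_sum, ← Finset.sum_filter]
    simp only [Finset.filter_mem_eq_inter, Finset.univ_inter]
    exact Finset.sum_congr rfl fun v _ => by rw [smul_smul]
  rw [Finset.sum_congr rfl fun t _ => e1 t, Finset.sum_congr rfl fun t _ => e2 t,
    ← Finset.sum_product', ← Finset.sum_product']
  refine Finset.sum_bij_ne_zero (fun x _ _ => (insert x.2 x.1, x.2)) ?_ ?_ ?_ ?_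
  · intro x _ _; simp
  · rintro ⟨t, v⟩ _ h1 ⟨t', v'⟩ _ h2 heq
    simp only [Prod.mk.injEq] at heq
    obtain ⟨h3, rfl⟩ := heq
    have hv : v ∉ t := by
      intro h; apply h1; rw [if_pos h]
    have hv' : v ∉ t' := by
      intro h; apply h2; rw [if_pos h]
    rw [← Finset.erase_insert hv, h3, Finset.erase_insert hv']
  · rintro ⟨s, v⟩ _ h1
    have hv : v ∈ s := by
      by_contra h; apply h1; rw [if_neg h]
    refine ⟨(s.erase v, v), by simp, ?_, ?_⟩
    · simp only
      rw [if_neg (Finset.notMem_erase v s), Finset.insert_erase hv]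
      simp only [if_pos hv] at h1
      rwa [mul_comm]
    · simp [Finset.insert_erase hv]
  · rintro ⟨t, v⟩ _ h1
    have hv : v ∉ t := by
      intro h; apply h1; rw [if_pos h]
    simp only
    rw [if_neg hv, if_pos (Finset.mem_insert_self v t), Finset.erase_insert hv, mul_comm]

theorem Rel_dlt {M : Type} [AddCommGroup M] (h : Finset V → M) (s : Finset V) :
    ∑ t, bdry (dlt ℤ s) t • h t = Rel h s := by
  rw [sum_bdry, Finset.sum_eq_single s]
  · simp [dlt]
  · intro t _ ht; simp [dlt, ht]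
  · intro h; exact absurd (Finset.mem_univ _) h

/-- the complex -/
def Cx {J : Type} (v0 : V) (D : ℕ) (R : Finset (Finset V)) (φ : J → Finset V) :
    Set (Finset V) :=
  {s | (s.Nonempty ∧ s.card ≤ D + 1) ∨
    (s.card = D + 2 ∧ ((v0 ∈ s ∧ s.erase v0 ∉ R) ∨ ∃ j, φ j = s))}

/-- the hypotheses -/
structure Dat {J : Type} [Fintype J] (v0 : V) (D : ℕ) (R : Finset (Finset V))
    (φ : J → Finset V) (G : Type) [AddCommGroup G] (g : Finset V → G) : Prop where
  hR : ∀ ρ ∈ R, ρ.card = D + 1 ∧ v0 ∉ ρ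
  hφ : ∀ j, (φ j).card = D + 2 ∧ v0 ∉ φ j
  hJ : Fintype.card J = R.card
  hg0 : ∀ ρ, ρ ∉ R → g ρ = 0
  hrel : ∀ j, Rel g (φ j) = 0
  huniv : ∀ (H : Type) [AddCommGroup H] (h : Finset V → H), (∀ ρ, ρ ∉ R → h ρ = 0) →
    (∀ j, Rel h (φ j) = 0) → ∃ ψ : G →+ H, ∀ ρ, ψ (g ρ) = h ρ
  hgen : AddSubgroup.closure (Set.range g) = ⊤

variable {J : Type} [Fintype J] {v0 : V} {D : ℕ} {R : Finset (Finset V)} {φ : J → Finset V}
  {G : Type} [AddCommGroup G] {g : Finset V → G}

theorem cone_chain (ρ : Finset V) (hρ : ρ.card = D + 1) (hR : ρ ∉ R) :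
    IsChain (Cx v0 D R φ) (D + 1) (cn v0 (dlt k ρ)) := by
  intro s hs
  rw [cn_apply] at hs
  split_ifs at hs with h
  · have h1 : s.erase v0 = ρ := by
      by_contra hne
      exact (right_ne_zero_of_mul hs) (if_neg hne)
    have h2 : s.card = D + 2 := by
      have := Finset.card_erase_of_mem h
      have := Finset.card_pos.2 ⟨v0, h⟩
      rw [h1] at *
      omega
    exact ⟨Or.inr ⟨h2, Or.inl ⟨h, by rw [h1]; exact hR⟩⟩, h2⟩
  · exact absurd rfl hs

theorem cn_dlt_of_mem (ρ : Finset V) (h : v0 ∈ ρ) : cn v0 (dlt k ρ) = 0 := by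
  funext s
  rw [cn_apply]
  split_ifs with hs
  · rw [dlt, if_neg, mul_zero]
    · rfl
    · rintro rfl
      exact Finset.notMem_erase v0 s h
  · rfl

/-- θ -/
def theta (g : Finset V → G) (z : Finset V → ℤ) : G := ∑ t, z t • g t

theorem theta_bdry (w : Finset V → ℤ) : theta g (bdry w) = ∑ s, w s • Rel g s := sum_bdry g w

theorem Rel_cone (hd : Dat v0 D R φ G g) {s : Finset V} (hv : v0 ∈ s) (hs : s.erase v0 ∉ R) :
    Rel g s = 0 := by
  rw [Rel]
  refine Finset.sum_eq_zero fun v _ => ?_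
  by_cases h : v = v0
  · rw [h, hd.hg0 _ hs, smul_zero]
  · rw [hd.hg0, smul_zero]
    intro hR
    exact (hd.hR _ hR).2 (Finset.mem_erase.2 ⟨Ne.symm h, hv⟩)

theorem theta_boundary (hd : Dat v0 D R φ G g) {w : Finset V → ℤ}
    (hw : IsChain (Cx v0 D R φ) (D + 1) w) : theta g (bdry w) = 0 := by
  rw [theta_bdry]
  refine Finset.sum_eq_zero fun s _ => ?_
  by_cases h : w s = 0
  · rw [h, zero_smul]
  · obtain ⟨h1, h2⟩ := hw s h
    rcases h1 with ⟨_, h1⟩ | ⟨_, ⟨hv, hs⟩ | ⟨j, rfl⟩⟩
    · omega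
    · rw [Rel_cone hd hv hs, smul_zero]
    · rw [hd.hrel, smul_zero]

/-- The key: the cone cycle of `ρ` modulo boundaries. -/
theorem exists_psi (hd : Dat v0 D R φ G g) :
    ∃ ψ : G →+ ((Finset V → ℤ) ⧸ Bnd (Cx v0 D R φ) D), ∀ z : Finset V → ℤ,
      (∀ s, z s ≠ 0 → s.card = D + 1) →
      (QuotientAddGroup.mk (bdry (cn v0 z)) : (Finset V → ℤ) ⧸ Bnd (Cx v0 D R φ) D) =
        ψ (theta g z) := by
  classical
  let Q := (Finset V → ℤ) ⧸ Bnd (Cx v0 D R φ) D
  let mk : (Finset V → ℤ) →+ Q := QuotientAddGroup.mk' _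
  let h : Finset V → Q := fun ρ => if ρ ∈ R then mk (bdry (cn v0 (dlt ℤ ρ))) else 0
  have hh : ∀ ρ : Finset V, ρ.card = D + 1 → mk (bdry (cn v0 (dlt ℤ ρ))) = h ρ := by
    intro ρ hρ
    by_cases hR : ρ ∈ R
    · simp only [h, if_pos hR]
    · simp only [h, if_neg hR]
      exact (QuotientAddGroup.eq_zero_iff _).2 ⟨_, cone_chain ρ hρ hR, rfl⟩
  have hC : ∀ z : Finset V → ℤ, (∀ s, z s ≠ 0 → s.card = D + 1) →
      mk (bdry (cn v0 z)) = ∑ s, z s • h s := by
    intro z hz
    conv_lhs => rw [eq_sum z, cn_sum, bdry_sum, map_sum]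
    refine Finset.sum_congr rfl fun s _ => ?_
    rw [cn_smul, bdry_smul, map_zsmul]
    by_cases h0 : z s = 0
    · rw [h0, zero_smul, zero_smul]
    · rw [hh s (hz s h0)]
  have hcard : ∀ (s t : Finset V), bdry (dlt ℤ s) t ≠ 0 → t.card + 1 = s.card := by
    intro s t ht
    rw [bdry] at ht
    obtain ⟨v, _, hv⟩ := Finset.exists_ne_zero_of_sum_ne_zero ht
    split_ifs at hv with h1
    · exact absurd rfl hv
    · have : insert v t = s := by
        by_contra hne
        exact (right_ne_zero_of_mul hv) (if_neg hne)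
      rw [← this, Finset.card_insert_of_notMem h1]
  obtain ⟨ψ, hψ⟩ := hd.huniv Q h (fun ρ hρ => if_neg hρ) (fun j => by
    rw [← Rel_dlt, ← hC _ (fun s hs => by have := hcard _ _ hs; have := (hd.hφ j).1; omega)]
    have e : bdry (cn v0 (bdry (dlt ℤ (φ j)))) = bdry (dlt ℤ (φ j)) := by
      have := cn_formula v0 (bdry (dlt ℤ (φ j)))
      rw [bdry_bdry, cn_zero, add_zero] at this
      exact this
    rw [e]
    refine (QuotientAddGroup.eq_zero_iff _).2 ⟨dlt ℤ (φ j), fun s hs => ?_, rfl⟩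
    have h1 : s = φ j := by
      by_contra hne; exact hs (if_neg hne)
    rw [h1]
    exact ⟨Or.inr ⟨(hd.hφ j).1, Or.inr ⟨j, rfl⟩⟩, (hd.hφ j).1⟩)
  refine ⟨ψ, fun z hz => ?_⟩
  have h1 : (QuotientAddGroup.mk (bdry (cn v0 z)) : Q) = mk (bdry (cn v0 z)) := rfl
  rw [h1, hC z hz, theta, map_sum]
  exact Finset.sum_congr rfl fun s _ => by rw [map_zsmul, hψ]

theorem mem_Bnd_of_theta (hd : Dat v0 D R φ G g) {z : Finset V → ℤ}
    (hz : ∀ s, z s ≠ 0 → s.card = D + 1) (h0 : bdry z = 0) (hth : theta g z = 0) :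
    z ∈ Bnd (Cx v0 D R φ) D := by
  obtain ⟨ψ, hψ⟩ := exists_psi hd
  have h1 := hψ z hz
  rw [hth, map_zero] at h1
  have h2 := (QuotientAddGroup.eq_zero_iff _).1 h1
  have h3 := cn_formula v0 z
  rw [h0, cn_zero, add_zero] at h3
  rwa [h3] at h2

/-- the cone cycle of `ρ` -/
theorem theta_cone (hd : Dat v0 D R φ G g) (ρ : Finset V) (hρ : v0 ∉ ρ) :
    theta g (bdry (cn v0 (dlt ℤ ρ))) = g ρ := by
  have h1 := cn_formula v0 (dlt ℤ ρ)
  have h2 : bdry (cn v0 (dlt ℤ ρ)) = dlt ℤ ρ - cn v0 (bdry (dlt ℤ ρ)) := eq_sub_of_add_eq h1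
  rw [h2, theta]
  have h3 : ∀ t, (dlt ℤ ρ - cn v0 (bdry (dlt ℤ ρ))) t • g t = if t = ρ then g ρ else 0 := by
    intro t
    by_cases hv : v0 ∈ t
    · have hg : g t = 0 := hd.hg0 t (fun h => (hd.hR t h).2 hv)
      rw [hg, smul_zero, if_neg]
      rintro rfl
      exact hρ hv
    · rw [Pi.sub_apply, cn_apply, if_neg hv, sub_zero, dlt]
      split_ifs with h
      · rw [h, one_smul]
      · rw [zero_smul]
  rw [Finset.sum_congr rfl fun t _ => h3 t]
  simp

theorem cone_cyc (ρ : Finset V) (hρ : ρ.card = D + 1) :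
    bdry (cn v0 (dlt ℤ ρ)) ∈ Cyc (Cx v0 D R φ) D := by
  refine ⟨fun s hs => ?_, bdry_bdry _⟩
  have hc : s.card = D + 1 := by
    rw [bdry] at hs
    obtain ⟨v, _, hv⟩ := Finset.exists_ne_zero_of_sum_ne_zero hs
    split_ifs at hv with h1
    · exact absurd rfl hv
    · have h2 := right_ne_zero_of_mul hv
      rw [cn_apply] at h2
      split_ifs at h2 with h3
      · have h4 : (insert v s).erase v0 = ρ := by
          by_contra hne
          exact (right_ne_zero_of_mul h2) (if_neg hne)
        have h5 := Finset.card_erase_of_mem h3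
        rw [h4, hρ, Finset.card_insert_of_notMem h1] at h5
        omega
      · exact absurd rfl h2
  exact ⟨Or.inl ⟨Finset.card_pos.1 (by omega), by omega⟩, hc⟩

/-- The homology in degree `D`. -/
theorem hom_equiv (hd : Dat v0 D R φ G g) : Nonempty (Hom (Cx v0 D R φ) D ≃+ G) := by
  let θ : Cyc (Cx v0 D R φ) D →+ G :=
    { toFun := fun z => theta g z.1
      map_zero' := by simp [theta]
      map_add' := fun a b => by
        simp only [theta, AddSubgroup.coe_add, Pi.add_apply, add_smul]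
        rw [Finset.sum_add_distrib] }
  have hθ : ∀ z, θ z = theta g z.1 := fun z => rfl
  have hker : θ.ker = (Bnd (Cx v0 D R φ) D).addSubgroupOf (Cyc (Cx v0 D R φ) D) := by
    ext z
    rw [AddMonoidHom.mem_ker, AddSubgroup.mem_addSubgroupOf, hθ]
    constructor
    · intro h
      exact mem_Bnd_of_theta hd (fun s hs => (z.2.1 s hs).2) z.2.2 h
    · rintro ⟨w, hw, h⟩
      rw [← h]
      exact theta_boundary hd hw
  have hsurj : Function.Surjective θ := by
    rw [← AddMonoidHom.range_eq_top, eq_top_iff, ← hd.hgen, AddSubgroup.closure_le]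
    rintro _ ⟨ρ, rfl⟩
    by_cases hρ : ρ ∈ R
    · exact ⟨⟨_, cone_cyc ρ (hd.hR ρ hρ).1⟩, theta_cone hd ρ (hd.hR ρ hρ).2⟩
    · rw [hd.hg0 ρ hρ]; exact zero_mem _
  exact ⟨(QuotientAddGroup.quotientAddEquivOfEq hker.symm).trans
    (QuotientAddGroup.quotientKerEquivOfSurjective θ hsurj)⟩

theorem homology_is (hd : Dat v0 D R φ G g) : HomologyIs (Cx v0 D R φ) D G := by
  refine ⟨theta g, ?_, ?_, ?_⟩
  · intro a b _ _
    simp only [theta, Pi.add_apply, add_smul]
    rw [Finset.sum_add_distrib]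
  · let θ : Cyc (Cx v0 D R φ) D →+ G :=
      { toFun := fun z => theta g z.1
        map_zero' := by simp [theta]
        map_add' := fun a b => by
          simp only [theta, AddSubgroup.coe_add, Pi.add_apply, add_smul]
          rw [Finset.sum_add_distrib] }
    have hsurj : Function.Surjective θ := by
      rw [← AddMonoidHom.range_eq_top, eq_top_iff, ← hd.hgen, AddSubgroup.closure_le]
      rintro _ ⟨ρ, rfl⟩
      by_cases hρ : ρ ∈ R
      · exact ⟨⟨_, cone_cyc ρ (hd.hR ρ hρ).1⟩, theta_cone hd ρ (hd.hR ρ hρ).2⟩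
      · rw [hd.hg0 ρ hρ]; exact zero_mem _
    intro x
    obtain ⟨z, hz⟩ := hsurj x
    exact ⟨z.1, z.2, hz⟩
  · intro z hz
    constructor
    · intro h
      exact mem_Bnd_of_theta hd (fun s hs => (hz.1 s hs).2) hz.2 h
    · rintro ⟨w, hw, h⟩
      rw [← h]
      exact theta_boundary hd hw

/-! ### rational acyclicity -/

theorem exists_w (hd : Dat v0 D R φ G g) [Finite G] {ρ : Finset V} (hρ : ρ ∈ R) :
    ∃ w : Finset V → ℤ, IsChain (Cx v0 D R φ) (D + 1) w ∧
      bdry w = (Nat.card G : ℤ) • bdry (cn v0 (dlt ℤ ρ)) := by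
  have hc := cone_cyc (v0 := v0) (D := D) (R := R) (φ := φ) ρ (hd.hR ρ hρ).1
  refine mem_Bnd_of_theta hd (fun s hs => ?_) ?_ ?_
  · refine (hc.1 s (fun h => hs ?_)).2
    rw [Pi.smul_apply, h, smul_zero]
  · rw [bdry_smul, hc.2, smul_zero]
  · have h1 : theta g ((Nat.card G : ℤ) • bdry (cn v0 (dlt ℤ ρ))) =
        (Nat.card G : ℤ) • theta g (bdry (cn v0 (dlt ℤ ρ))) := by
      simp only [theta, Pi.smul_apply, smul_eq_mul, mul_smul, Finset.smul_sum]
    rw [h1, theta_cone hd ρ (hd.hR ρ hρ).2, Nat.cast_smul_eq_nsmul]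
    exact card_nsmul_eq_zero'

/-- casting to the rationals -/
def cst (w : Finset V → ℤ) : Finset V → ℚ := fun s => (w s : ℚ)

theorem bdry_cst (w : Finset V → ℤ) : bdry (cst w) = cst (bdry w) := by
  funext t
  simp only [bdry, cst]
  push_cast
  refine Finset.sum_congr rfl fun v _ => ?_
  split_ifs <;> simp

theorem cn_cst (v : V) (w : Finset V → ℤ) : cn v (cst w) = cst (cn v w) := by
  funext t
  simp only [cn_apply, cst]
  split_ifs
  · push_cast; ring
  · simp

theorem dlt_cst (ρ : Finset V) : cst (dlt ℤ ρ) = dlt ℚ ρ := by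
  funext t
  simp only [cst, dlt]
  split_ifs <;> simp

theorem chain_sum {ι : Type} {K : Set (Finset V)} {q : ℕ} (S : Finset ι) (f : ι → Finset V → k)
    (h : ∀ i ∈ S, IsChain K q (f i)) : IsChain K q (∑ i ∈ S, f i) := by
  intro s hs
  rw [Finset.sum_apply] at hs
  obtain ⟨i, hi, h2⟩ := Finset.exists_ne_zero_of_sum_ne_zero hs
  exact h i hi s h2

theorem chain_smul {K : Set (Finset V)} {q : ℕ} (a : k) {f : Finset V → k} (h : IsChain K q f) :
    IsChain K q (a • f) := by
  intro s hs
  exact h s (fun h0 => hs (by rw [Pi.smul_apply, h0, smul_zero]))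

theorem chain_cst {K : Set (Finset V)} {q : ℕ} {f : Finset V → ℤ} (h : IsChain K q f) :
    IsChain K q (cst f) := by
  intro s hs
  exact h s (fun h0 => hs (by simp [cst, h0]))

/-- rational cone cycles bound -/
theorem rat_cone (hd : Dat v0 D R φ G g) [Finite G] (ρ : Finset V) (hρ : ρ.card = D + 1) :
    ∃ w : Finset V → ℚ, IsChain (Cx v0 D R φ) (D + 1) w ∧
      bdry w = bdry (cn v0 (dlt ℚ ρ)) := by
  classical
  by_cases hR : ρ ∈ R
  · obtain ⟨w, hw, hb⟩ := exists_w hd hR
    refine ⟨((Nat.card G : ℚ)⁻¹) • cst w, chain_smul _ (chain_cst hw), ?_⟩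
    have hne : (Nat.card G : ℚ) ≠ 0 := by
      have : 0 < Nat.card G := Nat.card_pos
      positivity
    have e : cst ((Nat.card G : ℤ) • bdry (cn v0 (dlt ℤ ρ))) =
        (Nat.card G : ℚ) • cst (bdry (cn v0 (dlt ℤ ρ))) := by
      funext s; simp [cst]
    rw [bdry_smul, bdry_cst, hb, e, smul_smul, inv_mul_cancel₀ hne, one_smul, ← bdry_cst,
      ← cn_cst, dlt_cst]
  · exact ⟨cn v0 (dlt ℚ ρ), cone_chain ρ hρ hR, rfl⟩

/-- the matrix of the problem, as a linear map -/
noncomputable def AA (R : Finset (Finset V)) (φ : J → Finset V) : (J → ℚ) →ₗ[ℚ] (R → ℚ) where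
  toFun c ρ := ∑ j, c j * bdry (dlt ℚ (φ j)) ρ.1
  map_add' c c' := by
    funext ρ
    simp only [Pi.add_apply, add_mul, Finset.sum_add_distrib]
  map_smul' a c := by
    funext ρ
    simp only [Pi.smul_apply, smul_eq_mul, RingHom.id_apply, Finset.mul_sum, mul_assoc]

theorem bdry_dlt_cone (hd : Dat v0 D R φ G g) {s : Finset V} (hv : v0 ∈ s) (hs : s.erase v0 ∉ R)
    {ρ : Finset V} (hρ : ρ ∈ R) : bdry (dlt ℚ s) ρ = 0 := by
  rw [bdry]
  refine Finset.sum_eq_zero fun v _ => ?_
  split_ifs with h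
  · rfl
  · rw [dlt, if_neg, mul_zero]
    intro h1
    have hv0 := (hd.hR ρ hρ).2
    rw [← h1] at hv hs
    rcases Finset.mem_insert.1 hv with h2 | h2
    · rw [← h2] at hs
      rw [Finset.erase_insert hv0] at hs
      exact hs hρ
    · exact hv0 h2

theorem bdry_apply_R (hd : Dat v0 D R φ G g) (w : Finset V → ℚ)
    (hw : IsChain (Cx v0 D R φ) (D + 1) w) {ρ : Finset V} (hρ : ρ ∈ R) :
    bdry w ρ = ∑ s ∈ Finset.univ.filter (fun s => ∃ j, φ j = s), w s * bdry (dlt ℚ s) ρ := by
  classical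
  have e : bdry w ρ = ∑ s, w s * bdry (dlt ℚ s) ρ := by
    conv_lhs => rw [eq_sum w, bdry_sum, Finset.sum_apply]
    refine Finset.sum_congr rfl fun s _ => ?_
    rw [bdry_smul]; rfl
  rw [e, Finset.sum_filter]
  refine Finset.sum_congr rfl fun s _ => ?_
  split_ifs with h
  · rfl
  · by_cases h0 : w s = 0
    · rw [h0, zero_mul]
    · obtain ⟨h1, h2⟩ := hw s h0
      rcases h1 with ⟨_, h1⟩ | ⟨_, ⟨hv, hs⟩ | hj⟩
      · omega
      · rw [bdry_dlt_cone hd hv hs hρ, mul_zero]
      · exact absurd hj h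

theorem AA_surj (hd : Dat v0 D R φ G g) [Finite G] : Function.Surjective (AA R φ) := by
  classical
  rw [← LinearMap.range_eq_top, eq_top_iff]
  rintro x -
  have hx : x = ∑ ρ, x ρ • (Pi.single ρ (1 : ℚ) : R → ℚ) := by
    funext ρ
    rw [Finset.sum_apply]
    simp [Pi.single_apply]
  rw [hx]
  refine Submodule.sum_mem _ fun ρ _ => Submodule.smul_mem _ _ ?_
  obtain ⟨w, hw, hb⟩ := rat_cone hd ρ.1 (hd.hR ρ.1 ρ.2).1
  -- choose a representative for every simplex in the range
  let r : Finset V → Option J := fun s => if h : ∃ j, φ j = s then some h.choose else none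
  have hr : ∀ s, (∃ j, φ j = s) → ∃ j, r s = some j ∧ φ j = s := by
    intro s h
    exact ⟨h.choose, by simp only [r, dif_pos h], h.choose_spec⟩
  let c : J → ℚ := fun j => if r (φ j) = some j then w (φ j) else 0
  refine ⟨c, ?_⟩
  funext ρ'
  show ∑ j, c j * bdry (dlt ℚ (φ j)) ρ'.1 = (Pi.single ρ (1 : ℚ) : R → ℚ) ρ'
  have h1 : ∑ j, c j * bdry (dlt ℚ (φ j)) ρ'.1 = bdry w ρ'.1 := by
    rw [bdry_apply_R hd w hw ρ'.2]
    have e1 : ∀ j, c j * bdry (dlt ℚ (φ j)) ρ'.1 =
        if r (φ j) = some j then w (φ j) * bdry (dlt ℚ (φ j)) ρ'.1 else 0 := by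
      intro j
      simp only [c]
      split_ifs <;> simp
    rw [Finset.sum_congr rfl fun j _ => e1 j, ← Finset.sum_filter]
    refine Finset.sum_bij (fun j _ => φ j) ?_ ?_ ?_ ?_
    · intro j _; simp
    · intro j hj j' hj' h
      have h2 := (Finset.mem_filter.1 hj).2
      have h3 := (Finset.mem_filter.1 hj').2
      rw [h, h3] at h2
      exact (Option.some.inj h2).symm
    · intro s hs
      obtain ⟨j, h2, h3⟩ := hr s (Finset.mem_filter.1 hs).2
      refine ⟨j, Finset.mem_filter.2 ⟨Finset.mem_univ _, ?_⟩, h3⟩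
      rw [h3, h2]
    · intro j _; rfl
  rw [h1, hb]
  have h2 := congrFun (cn_formula v0 (dlt ℚ ρ.1)) ρ'.1
  rw [Pi.add_apply, cn_apply v0 (bdry (dlt ℚ ρ.1)), if_neg (hd.hR ρ'.1 ρ'.2).2, add_zero] at h2
  rw [h2, dlt, Pi.single_apply]
  simp only [Subtype.ext_iff]

theorem AA_inj (hd : Dat v0 D R φ G g) [Finite G] : Function.Injective (AA R φ) := by
  classical
  have h1 : Module.finrank ℚ (J → ℚ) = Module.finrank ℚ (R → ℚ) := by
    rw [Module.finrank_fintype_fun_eq_card, Module.finrank_fintype_fun_eq_card, hd.hJ,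
      Fintype.card_coe]
  exact (LinearMap.injective_iff_surjective_of_finrank_eq_finrank h1).2 (AA_surj hd)

theorem phi_inj (hd : Dat v0 D R φ G g) [Finite G] : Function.Injective φ := by
  classical
  intro j j' h
  by_contra hne
  have h1 : AA R φ (Pi.single j 1) = AA R φ (Pi.single j' 1) := by
    funext ρ
    show ∑ i, (Pi.single j (1 : ℚ) : J → ℚ) i * bdry (dlt ℚ (φ i)) ρ.1 =
      ∑ i, (Pi.single j' (1 : ℚ) : J → ℚ) i * bdry (dlt ℚ (φ i)) ρ.1
    simp [Pi.single_apply, h]
  have h2 := AA_inj hd h1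
  have h3 := congrFun h2 j
  rw [Pi.single_eq_same, Pi.single_eq_of_ne hne] at h3
  exact one_ne_zero h3

theorem rat_acyclic (hd : Dat v0 D R φ G g) [Finite G] : RatAcyclic (Cx v0 D R φ) := by
  classical
  intro q z hz hbz
  rcases lt_trichotomy q D with hq | hq | hq
  · -- below the middle
    refine ⟨cn v0 z, fun s hs => ?_, ?_⟩
    · rw [cn_apply] at hs
      split_ifs at hs with h
      · have h1 := (hz _ (right_ne_zero_of_mul hs)).2
        have h2 := Finset.card_erase_of_mem h
        have h3 := Finset.card_pos.2 ⟨v0, h⟩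
        have h4 : s.card = q + 2 := by omega
        exact ⟨Or.inl ⟨⟨v0, h⟩, by omega⟩, h4⟩
      · exact absurd rfl hs
    · have := cn_formula v0 z
      rw [hbz, cn_zero, add_zero] at this
      exact this
  · subst hq
    have hW : ∀ ρ : Finset V, ∃ w : Finset V → ℚ, IsChain (Cx v0 q R φ) (q + 1) w ∧
        bdry w = z ρ • bdry (cn v0 (dlt ℚ ρ)) := by
      intro ρ
      by_cases h0 : z ρ = 0
      · refine ⟨0, fun s h => absurd rfl h, ?_⟩
        rw [h0, zero_smul, bdry_zero]
      · obtain ⟨w, hw, hb⟩ := rat_cone hd ρ (hz ρ h0).2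
        exact ⟨z ρ • w, chain_smul _ hw, by rw [bdry_smul, hb]⟩
    choose w hw hb using hW
    refine ⟨∑ ρ, w ρ, chain_sum _ _ (fun ρ _ => hw ρ), ?_⟩
    rw [bdry_sum, Finset.sum_congr rfl fun ρ _ => hb ρ]
    have h1 := cn_formula v0 z
    rw [hbz, cn_zero, add_zero] at h1
    conv_rhs => rw [← h1]
    conv_rhs => rw [eq_sum z, cn_sum, bdry_sum]
    refine Finset.sum_congr rfl fun ρ _ => ?_
    rw [cn_smul, bdry_smul]
  · -- above the middle the cycle vanishes
    have hz0 : z = 0 := by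
      by_cases hq2 : q = D + 1
      · subst hq2
        have hinj := phi_inj hd
        have hA : AA R φ (fun j => z (φ j)) = 0 := by
          funext ρ
          show ∑ j, z (φ j) * bdry (dlt ℚ (φ j)) ρ.1 = 0
          have h1 := bdry_apply_R hd z hz ρ.2
          rw [hbz] at h1
          have h2 : ∑ j, z (φ j) * bdry (dlt ℚ (φ j)) ρ.1 =
              ∑ s ∈ Finset.univ.filter (fun s => ∃ j, φ j = s), z s * bdry (dlt ℚ s) ρ.1 := by
            refine Finset.sum_bij (fun j _ => φ j) ?_ ?_ ?_ ?_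
            · intro j _; simp
            · intro j _ j' _ h; exact hinj h
            · intro s hs
              obtain ⟨j, hj⟩ := (Finset.mem_filter.1 hs).2
              exact ⟨j, Finset.mem_univ _, hj⟩
            · intro j _; rfl
          rw [h2, ← h1]
          rfl
        have hφ0 : ∀ j, z (φ j) = 0 := by
          intro j
          have := AA_inj hd (a₁ := fun j => z (φ j)) (a₂ := 0) (by rw [hA, map_zero])
          exact congrFun this j
        funext s
        by_contra hs
        have hs' : z s ≠ 0 := hs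
        obtain ⟨h1, h2⟩ := hz s hs'
        rcases h1 with ⟨_, h1⟩ | ⟨_, ⟨hv, hsR⟩ | ⟨j, rfl⟩⟩
        · omega
        · -- evaluate the boundary at `s.erase v0`
          have h3 := congrFun hbz (s.erase v0)
          rw [bdry, Finset.sum_eq_single v0] at h3
          · rw [if_neg (Finset.notMem_erase v0 s), Finset.insert_erase hv, Pi.zero_apply] at h3
            rcases mul_eq_zero.1 h3 with h4 | h4
            · exact (pow_ne_zero _ (by norm_num)) h4
            · exact hs' h4
          · intro v _ hv'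
            split_ifs with h4
            · rfl
            · have h5 : z (insert v (s.erase v0)) = 0 := by
                by_contra h6
                obtain ⟨h7, h8⟩ := hz _ h6
                have hv0 : v0 ∉ insert v (s.erase v0) := by
                  intro h9
                  rcases Finset.mem_insert.1 h9 with h10 | h10
                  · exact hv' h10.symm
                  · exact Finset.notMem_erase v0 s h10
                rcases h7 with ⟨_, h7⟩ | ⟨_, ⟨h7, _⟩ | ⟨j, hj⟩⟩
                · omega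
                · exact hv0 h7
                · exact h6 (hj ▸ hφ0 j)
              rw [h5, mul_zero]
          · intro h4; exact absurd (Finset.mem_univ _) h4
        · exact hs' (hφ0 j)
      · funext s
        by_contra hs
        have hs' : z s ≠ 0 := hs
        obtain ⟨h1, h2⟩ := hz s hs'
        rcases h1 with ⟨_, h1⟩ | ⟨h1, _⟩ <;> omega
    refine ⟨0, fun s h => absurd rfl h, ?_⟩
    rw [hz0, bdry_zero]

end

end Pool.Agent.V11212.Tor
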