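import Mathlib

/-!
Binary tapes presenting finite abelian groups.
-/

set_option autoImplicit false

namespace Pool.Agent.V11212.Tor

/-- The relations of a tape with bits `ε` and end marks `e`, for the values `X`, `Y` in `H`. -/
structure TRel (L : ℕ) (ε e : ℕ → Bool) {H : Type} [AddCommGroup H] (X Y : ℕ → H) : Prop where
  x_next : ∀ c, c + 1 < L → e c = false → X (c + 1) = X c + X c
  y_next : ∀ c, c + 1 < L → e c = false → Y (c + 1) = Y c + if ε c then X c else 0
  close : ∀ c, c < L → e c = true → (Y c + if ε c then X c else 0) = 0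
  y_start : ∀ c, c + 1 < L → e c = true → Y (c + 1) = 0
  y_zero : Y 0 = 0

/-- A tape presenting `G`. -/
structure Tape (G : Type) [AddCommGroup G] (L : ℕ) where
  pos : 0 < L
  ε : ℕ → Bool
  e : ℕ → Bool
  last : e (L - 1) = true
  X : ℕ → G
  Y : ℕ → G
  rel : TRel L ε e X Y
  univ : ∀ (H : Type) [AddCommGroup H] (X' Y' : ℕ → H), TRel L ε e X' Y' →
    ∃ ψ : G →+ H, ∀ c, c < L → ψ (X c) = X' c ∧ ψ (Y c) = Y' c
  gen : AddSubgroup.closure (X '' {c | c < L}) = ⊤

theorem mod_succ' (m c : ℕ) : m % 2 ^ (c + 1) = m % 2 ^ c + 2 ^ c * (m.testBit c).toNat := by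
  rw [Nat.mod_pow_succ, Nat.testBit_eq_decide_div_mod_eq]
  rcases Nat.mod_two_eq_zero_or_one (m / 2 ^ c) with h | h <;> simp [h]

/-- the tape of a cyclic group -/
def cycTape (m : ℕ) (L : ℕ) (hL : 0 < L) (hm : m < 2 ^ L) : Tape (ZMod m) L where
  pos := hL
  ε := m.testBit
  e := fun c => decide (c + 1 = L)
  last := by simp; omega
  X := fun c => ((2 ^ c : ℕ) : ZMod m)
  Y := fun c => ((m % 2 ^ c : ℕ) : ZMod m)
  rel := by
    have key : ∀ c, ((m % 2 ^ c : ℕ) : ZMod m) + (if m.testBit c then ((2 ^ c : ℕ) : ZMod m) else 0)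
        = ((m % 2 ^ (c + 1) : ℕ) : ZMod m) := by
      intro c
      rw [mod_succ']
      split_ifs with h
      · rw [h]; push_cast; simp
      · simp only [Bool.not_eq_true] at h
        rw [h]; simp
    refine ⟨fun c _ _ => ?_, fun c _ _ => (key c).symm, fun c _ h => ?_, fun c hc h => ?_, ?_⟩
    · rw [pow_succ]; push_cast; ring
    · rw [key]
      have : c + 1 = L := by simpa using h
      rw [this, Nat.mod_eq_of_lt hm]
      simp
    · exfalso
      have : c + 1 = L := by simpa using h
      omega
    · simp [Nat.mod_one]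
  univ := by
    intro H _ X' Y' h
    have hX : ∀ c, c < L → X' c = (2 ^ c : ℕ) • X' 0 := by
      intro c
      induction c with
      | zero => intro _; simp
      | succ c ih =>
        intro hc
        rw [h.x_next c hc (by simp; omega), ih (by omega), pow_succ, mul_comm, mul_smul, two_smul]
    have hY : ∀ c, c < L → Y' c = (m % 2 ^ c : ℕ) • X' 0 := by
      intro c
      induction c with
      | zero => intro _; rw [h.y_zero]; simp [Nat.mod_one]
      | succ c ih =>
        intro hc
        rw [h.y_next c hc (by simp; omega), ih (by omega), mod_succ', add_smul]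
        congr 1
        split_ifs with hb
        · rw [hb, hX c (by omega)]; simp
        · simp only [Bool.not_eq_true] at hb
          rw [hb]; simp
    have hclose : (m : ℕ) • X' 0 = 0 := by
      have h1 := h.close (L - 1) (by omega) (by simp; omega)
      rw [hY (L - 1) (by omega), hX (L - 1) (by omega)] at h1
      have h2 : m = m % 2 ^ (L - 1) + if m.testBit (L - 1) then 2 ^ (L - 1) else 0 := by
        have h3 := mod_succ' m (L - 1)
        have h4 : L - 1 + 1 = L := by omega
        rw [h4, Nat.mod_eq_of_lt hm] at h3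
        conv_lhs => rw [h3]
        split_ifs with hb
        · rw [hb]; simp
        · simp only [Bool.not_eq_true] at hb
          rw [hb]; simp
      conv_lhs => rw [h2]
      rw [add_smul, ← h1]
      congr 1
      split_ifs <;> simp
    let f : ℤ →+ H := zmultiplesHom H (X' 0)
    have hf : f m = 0 := by
      simp only [f, zmultiplesHom_apply, natCast_zsmul]
      exact hclose
    refine ⟨ZMod.lift m ⟨f, hf⟩, fun c hc => ?_⟩
    have hl : ∀ a : ℕ, ZMod.lift m ⟨f, hf⟩ ((a : ℕ) : ZMod m) = a • X' 0 := by
      intro a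
      have := ZMod.lift_coe m ⟨f, hf⟩ (a : ℤ)
      simp only [Int.cast_natCast] at this
      rw [this]
      simp only [f, zmultiplesHom_apply, natCast_zsmul]
    exact ⟨by rw [hl, hX c hc], by rw [hl, hY c hc]⟩
  gen := by
    rw [eq_top_iff]
    rintro x -
    obtain ⟨a, rfl⟩ := ZMod.intCast_surjective x
    have h1 : ((1 : ℕ) : ZMod m) ∈ AddSubgroup.closure
        ((fun c => ((2 ^ c : ℕ) : ZMod m)) '' {c | c < L}) :=
      AddSubgroup.subset_closure ⟨0, hL, by simp⟩
    have h2 := AddSubgroup.zsmul_mem _ h1 a
    simpa using h2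

/-- product of tapes -/
def prodTape {G₁ G₂ : Type} [AddCommGroup G₁] [AddCommGroup G₂] {L₁ L₂ : ℕ}
    (T₁ : Tape G₁ L₁) (T₂ : Tape G₂ L₂) : Tape (G₁ × G₂) (L₁ + L₂) where
  pos := by have := T₁.pos; omega
  ε := fun c => if c < L₁ then T₁.ε c else T₂.ε (c - L₁)
  e := fun c => if c < L₁ then T₁.e c else T₂.e (c - L₁)
  last := by
    have h1 := T₂.pos
    rw [if_neg (by omega)]
    have : L₁ + L₂ - 1 - L₁ = L₂ - 1 := by omega
    rw [this]; exact T₂.last
  X := fun c => if c < L₁ then (T₁.X c, 0) else (0, T₂.X (c - L₁))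
  Y := fun c => if c < L₁ then (T₁.Y c, 0) else (0, T₂.Y (c - L₁))
  rel := by
    have hp₁ := T₁.pos
    have hp₂ := T₂.pos
    have hlast := T₁.last
    have aux : ∀ (b : Bool) (x : G₁), (if b then ((x, 0) : G₁ × G₂) else 0) =
        (if b then x else 0, 0) := by
      intro b x; cases b
      · rfl
      · simp
    have aux2 : ∀ (b : Bool) (x : G₂), (if b then ((0, x) : G₁ × G₂) else 0) =
        (0, if b then x else 0) := by
      intro b x; cases b
      · rfl
      · simp
    refine ⟨fun c hc h => ?_, fun c hc h => ?_, fun c hc h => ?_, fun c hc h => ?_, ?_⟩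
    · by_cases h1 : c + 1 < L₁
      · simp only [if_pos h1, if_pos (show c < L₁ by omega)] at h ⊢
        rw [T₁.rel.x_next c h1 h]; simp
      · by_cases h2 : c < L₁
        · exfalso
          simp only [if_pos h2] at h
          have : c = L₁ - 1 := by omega
          rw [this, hlast] at h
          exact absurd h (by simp)
        · simp only [if_neg h1, if_neg h2] at h ⊢
          have e1 : c + 1 - L₁ = (c - L₁) + 1 := by omega
          rw [e1, T₂.rel.x_next (c - L₁) (by omega) h]; simp
    · by_cases h1 : c + 1 < L₁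
      · simp only [if_pos h1, if_pos (show c < L₁ by omega)] at h ⊢
        rw [T₁.rel.y_next c h1 h, aux]; simp
      · by_cases h2 : c < L₁
        · exfalso
          simp only [if_pos h2] at h
          have : c = L₁ - 1 := by omega
          rw [this, hlast] at h
          exact absurd h (by simp)
        · simp only [if_neg h1, if_neg h2] at h ⊢
          have e1 : c + 1 - L₁ = (c - L₁) + 1 := by omega
          rw [e1, T₂.rel.y_next (c - L₁) (by omega) h, aux2]; simp
    · by_cases h2 : c < L₁
      · simp only [if_pos h2] at h ⊢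
        rw [aux, Prod.mk_add_mk, T₁.rel.close c h2 h]; simp
      · simp only [if_neg h2] at h ⊢
        rw [aux2, Prod.mk_add_mk, T₂.rel.close (c - L₁) (by omega) h]; simp
    · by_cases h1 : c + 1 < L₁
      · simp only [if_pos h1, if_pos (show c < L₁ by omega)] at h ⊢
        rw [T₁.rel.y_start c h1 h]; simp
      · by_cases h2 : c < L₁
        · have e1 : c + 1 - L₁ = 0 := by omega
          simp only [if_neg h1, e1]
          rw [T₂.rel.y_zero]; simp
        · simp only [if_neg h1, if_neg h2] at h ⊢
          have e1 : c + 1 - L₁ = (c - L₁) + 1 := by omega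
          rw [e1, T₂.rel.y_start (c - L₁) (by omega) h]; simp
    · simp only [if_pos hp₁, T₁.rel.y_zero]; simp
  univ := by
    intro H _ X' Y' h
    have hp₁ := T₁.pos
    have hp₂ := T₂.pos
    obtain ⟨ψ₁, h₁⟩ := T₁.univ H X' Y'
      ⟨fun c hc he => h.x_next c (by omega) (by simp only [if_pos (show c < L₁ by omega)]; exact he),
        fun c hc he => by
          have := h.y_next c (by omega) (by simp only [if_pos (show c < L₁ by omega)]; exact he)
          simp only [if_pos (show c < L₁ by omega)] at this
          exact this,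
        fun c hc he => by
          have := h.close c (by omega) (by simp only [if_pos hc]; exact he)
          simp only [if_pos hc] at this
          exact this,
        fun c hc he => h.y_start c (by omega) (by
          simp only [if_pos (show c < L₁ by omega)]; exact he),
        h.y_zero⟩
    obtain ⟨ψ₂, h₂⟩ := T₂.univ H (fun c => X' (c + L₁)) (fun c => Y' (c + L₁))
      ⟨fun c hc he => by
          have := h.x_next (c + L₁) (by omega) (by
            simp only [if_neg (show ¬ c + L₁ < L₁ by omega), Nat.add_sub_cancel]; exact he)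
          rw [show c + 1 + L₁ = c + L₁ + 1 by omega]
          exact this,
        fun c hc he => by
          have := h.y_next (c + L₁) (by omega) (by
            simp only [if_neg (show ¬ c + L₁ < L₁ by omega), Nat.add_sub_cancel]; exact he)
          simp only [if_neg (show ¬ c + L₁ < L₁ by omega), Nat.add_sub_cancel] at this
          rw [show c + 1 + L₁ = c + L₁ + 1 by omega]
          exact this,
        fun c hc he => by
          have := h.close (c + L₁) (by omega) (by
            simp only [if_neg (show ¬ c + L₁ < L₁ by omega), Nat.add_sub_cancel]; exact he)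
          simp only [if_neg (show ¬ c + L₁ < L₁ by omega), Nat.add_sub_cancel] at this
          exact this,
        fun c hc he => by
          have := h.y_start (c + L₁) (by omega) (by
            simp only [if_neg (show ¬ c + L₁ < L₁ by omega), Nat.add_sub_cancel]; exact he)
          rw [show c + 1 + L₁ = c + L₁ + 1 by omega]
          exact this,
        by
          have h1 := h.y_start (L₁ - 1) (by omega) (by
            simp only [if_pos (show L₁ - 1 < L₁ by omega)]; exact T₁.last)
          rw [show L₁ - 1 + 1 = 0 + L₁ by omega] at h1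
          exact h1⟩
    refine ⟨ψ₁.comp (AddMonoidHom.fst G₁ G₂) + ψ₂.comp (AddMonoidHom.snd G₁ G₂), fun c hc => ?_⟩
    by_cases h1 : c < L₁
    · simp only [if_pos h1, AddMonoidHom.add_apply, AddMonoidHom.comp_apply,
        AddMonoidHom.coe_fst, AddMonoidHom.coe_snd, map_zero, add_zero]
      exact h₁ c h1
    · simp only [if_neg h1, AddMonoidHom.add_apply, AddMonoidHom.comp_apply,
        AddMonoidHom.coe_fst, AddMonoidHom.coe_snd, map_zero, zero_add]
      have := h₂ (c - L₁) (by omega)
      rw [show c - L₁ + L₁ = c by omega] at this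
      exact this
  gen := by
    have hp₁ := T₁.pos
    rw [eq_top_iff]
    rintro ⟨x, y⟩ -
    have h1 : (AddMonoidHom.inl G₁ G₂) x ∈ AddSubgroup.closure
        ((fun c => if c < L₁ then ((T₁.X c, 0) : G₁ × G₂) else (0, T₂.X (c - L₁))) ''
          {c | c < L₁ + L₂}) := by
      have hx : x ∈ AddSubgroup.closure (T₁.X '' {c | c < L₁}) := by rw [T₁.gen]; trivial
      have h2 := AddSubgroup.mem_map_of_mem (AddMonoidHom.inl G₁ G₂) hx
      rw [AddMonoidHom.map_closure] at h2
      refine AddSubgroup.closure_mono ?_ h2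
      rintro _ ⟨_, ⟨c, hc, rfl⟩, rfl⟩
      have hc' : c < L₁ := hc
      exact ⟨c, by simp only [Set.mem_ofPred_eq]; omega, by simp [hc']⟩
    have h2 : (AddMonoidHom.inr G₁ G₂) y ∈ AddSubgroup.closure
        ((fun c => if c < L₁ then ((T₁.X c, 0) : G₁ × G₂) else (0, T₂.X (c - L₁))) ''
          {c | c < L₁ + L₂}) := by
      have hy : y ∈ AddSubgroup.closure (T₂.X '' {c | c < L₂}) := by rw [T₂.gen]; trivial
      have h2 := AddSubgroup.mem_map_of_mem (AddMonoidHom.inr G₁ G₂) hy
      rw [AddMonoidHom.map_closure] at h2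
      refine AddSubgroup.closure_mono ?_ h2
      rintro _ ⟨_, ⟨c, hc, rfl⟩, rfl⟩
      have hc' : c < L₂ := hc
      exact ⟨c + L₁, by simp only [Set.mem_ofPred_eq]; omega, by simp⟩
    have h3 := add_mem h1 h2
    simpa using h3

/-- transport of tapes -/
def mapTape {G₁ G₂ : Type} [AddCommGroup G₁] [AddCommGroup G₂] {L : ℕ}
    (T : Tape G₁ L) (f : G₁ ≃+ G₂) : Tape G₂ L where
  pos := T.pos
  ε := T.ε
  e := T.e
  last := T.last
  X := fun c => f (T.X c)
  Y := fun c => f (T.Y c)
  rel := by
    have aux : ∀ (b : Bool) (x : G₁), (if b then f x else 0) = f (if b then x else 0) := by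
      intro b x; cases b <;> simp
    refine ⟨fun c hc h => ?_, fun c hc h => ?_, fun c hc h => ?_, fun c hc h => ?_, ?_⟩
    · rw [T.rel.x_next c hc h, map_add]
    · rw [T.rel.y_next c hc h, map_add, aux]
    · rw [aux, ← map_add, T.rel.close c hc h, map_zero]
    · rw [T.rel.y_start c hc h, map_zero]
    · rw [T.rel.y_zero, map_zero]
  univ := by
    intro H _ X' Y' h
    obtain ⟨ψ, hψ⟩ := T.univ H X' Y' h
    refine ⟨ψ.comp f.symm.toAddMonoidHom, fun c hc => ?_⟩
    simpa using hψ c hc
  gen := by
    have h := congrArg (AddSubgroup.map f.toAddMonoidHom) T.gen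
    rw [AddMonoidHom.map_closure, ← AddMonoidHom.range_eq_map,
      AddMonoidHom.range_eq_top.2 f.surjective] at h
    rw [← h]
    congr 1
    ext x
    simp [Set.mem_image]

/-- Every nontrivial finite abelian group has a short tape. -/
theorem exists_tape_pi (k : ℕ) (n : Fin (k + 1) → ℕ) (hn : ∀ i, 1 < n i) :
    ∃ L, 2 ^ L ≤ (∏ i, n i) ^ 2 ∧ Nonempty (Tape (∀ i, ZMod (n i)) L) := by
  have hcyc : ∀ m, 1 < m → ∃ L, 2 ^ L ≤ m ^ 2 ∧ Nonempty (Tape (ZMod m) L) := by
    intro m hm
    refine ⟨m.size, ?_, ⟨cycTape m m.size (Nat.size_pos.2 (by omega)) (Nat.lt_size_self m)⟩⟩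
    obtain ⟨t, ht⟩ : ∃ t, m.size = t + 1 := ⟨m.size - 1, by
      have := Nat.size_pos.2 (show 0 < m by omega); omega⟩
    have h1 : 2 ^ t ≤ m := by
      by_contra h
      have := Nat.size_le.2 (not_le.1 h)
      omega
    rw [ht, pow_succ]
    nlinarith
  induction k with
  | zero =>
    obtain ⟨L, h1, ⟨T⟩⟩ := hcyc (n 0) (hn 0)
    refine ⟨L, by simpa using h1, ⟨mapTape T ?_⟩⟩
    exact
      { toFun := fun x i => Fin.cases x (fun j => j.elim0) i
        invFun := fun f => f 0
        left_inv := fun x => rfl
        right_inv := fun f => by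
          funext i
          refine Fin.cases rfl (fun j => j.elim0) i
        map_add' := fun x y => by
          funext i
          refine Fin.cases rfl (fun j => j.elim0) i }
  | succ k ih =>
    obtain ⟨L₁, h1, ⟨T₁⟩⟩ := hcyc (n 0) (hn 0)
    obtain ⟨L₂, h2, ⟨T₂⟩⟩ := ih (fun i => n i.succ) (fun i => hn _)
    refine ⟨L₁ + L₂, ?_, ⟨mapTape (prodTape T₁ T₂) ?_⟩⟩
    · rw [Fin.prod_univ_succ, mul_pow, pow_add]
      exact Nat.mul_le_mul h1 h2
    · exact
        { toFun := fun x i => Fin.cases x.1 (fun j => x.2 j) i
          invFun := fun f => (f 0, fun j => f j.succ)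
          left_inv := fun x => rfl
          right_inv := fun f => by
            funext i
            refine Fin.cases rfl (fun j => rfl) i
          map_add' := fun x y => by
            funext i
            refine Fin.cases rfl (fun j => rfl) i }

theorem exists_tape (G : Type) [AddCommGroup G] [Finite G] [Nontrivial G] :
    ∃ L, 2 ^ L ≤ (Nat.card G) ^ 2 ∧ Nonempty (Tape G L) := by
  classical
  obtain ⟨ι, _, n, hn, ⟨f⟩⟩ := AddCommGroup.equiv_directSum_zmod_of_finite' G
  obtain ⟨k, ⟨e⟩⟩ : ∃ k, Nonempty (Fin k ≃ ι) := ⟨Fintype.card ι, ⟨(Fintype.equivFin ι).symm⟩⟩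
  have g1 : G ≃+ (∀ i, ZMod (n i)) := f.trans (DirectSum.addEquivProd _)
  have g2 : (∀ i : ι, ZMod (n i)) ≃+ (∀ j : Fin k, ZMod (n (e j))) :=
    { toFun := fun x j => x (e j)
      invFun := fun x i => cast (by rw [Equiv.apply_symm_apply]) (x (e.symm i))
      left_inv := fun x => by
        funext i
        have : ∀ (j : ι) (h : j = i), cast (by rw [h]) (x j) = x i := by
          intro j h; subst h; rfl
        exact this _ (e.apply_symm_apply i)
      right_inv := fun x => by
        funext j
        have : ∀ (j' : Fin k) (h : j' = j) (hh : ZMod (n (e j')) = ZMod (n (e j))),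
            cast hh (x j') = x j := by
          intro j' h hh; subst h; rfl
        exact this _ (e.symm_apply_apply j) _
      map_add' := fun x y => rfl }
  have g := g1.trans g2
  rcases k with _ | k
  · exfalso
    obtain ⟨a, b, hab⟩ := exists_pair_ne G
    apply hab
    apply g.injective
    funext j
    exact j.elim0
  · obtain ⟨L, hL, ⟨T⟩⟩ := exists_tape_pi k (fun j => n (e j)) (fun j => hn _)
    refine ⟨L, ?_, ⟨mapTape T g.symm⟩⟩
    have hc : Nat.card G = ∏ j, n (e j) := by
      rw [Nat.card_congr g.toEquiv, Nat.card_pi]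
      exact Finset.prod_congr rfl fun j _ => Nat.card_zmod _
    rw [hc]
    exact hL

end Pool.Agent.V11212.Tor
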