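import Pool.Agent.V11212.Tor.Vert
import Pool.Agent.V11212.Tor.Tape

/-!
The relations of the construction.
-/

set_option autoImplicit false

namespace Pool.Agent.V11212.Tor

open Finset

/-- the parity of a position -/
def bin (i : ℕ) : Bool := decide (i % 2 = 1)

theorem bin_succ (i : ℕ) : bin (i + 1) = !bin i := by
  unfold bin
  rcases Nat.mod_two_eq_zero_or_one i with h | h <;> simp [Nat.add_mod, h]

/-- nine indices -/
inductive Ix : Type
  | i0 | i1 | i2 | i3 | i4 | i5 | i6 | i7 | i8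
  deriving DecidableEq, Fintype

theorem card_Ix : Fintype.card Ix = 9 := rfl

/-- the kinds of simplices at position `i` -/
def kd (i : ℕ) : Ix → Kd
  | Ix.i0 => Kd.P 0 (bin i)
  | Ix.i1 => Kd.P 0 (!bin i)
  | Ix.i2 => Kd.P 1 (bin i)
  | Ix.i3 => Kd.P 1 (!bin i)
  | Ix.i4 => Kd.P 2 (bin i)
  | Ix.i5 => Kd.P 2 (!bin i)
  | Ix.i6 => Kd.V1 0
  | Ix.i7 => Kd.V1 2
  | Ix.i8 => Kd.V2 (!bin i)

theorem kd_inj {i : ℕ} {t t' : Ix} (h : kd i t = kd i t') : t = t' := by
  cases t <;> cases t' <;> simp [kd] at h ⊢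

theorem kd_ne1 {i : ℕ} {t : Ix} : kd i t ≠ Kd.V1 1 := by
  cases t <;> simp [kd]

theorem kd_ne2 {i : ℕ} {t : Ix} : kd i t ≠ Kd.V2 (bin i) := by
  cases t <;> simp [kd]

variable {n δ : ℕ}

/-- the simplices of the presentation -/
noncomputable def ky (L : ℕ) (p : ℕ → Cell n δ) (j : Fin L × Ix) : Finset (Vx n δ) :=
  enc (p j.1) (kd j.1 j.2)

/-- the set of those simplices -/
noncomputable def RR (L : ℕ) (p : ℕ → Cell n δ) : Finset (Finset (Vx n δ)) :=
  univ.image (ky L p)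

theorem ky_inj {L : ℕ} {p : ℕ → Cell n δ} (hp : ∀ i j, i < L → j < L → p i = p j → i = j) :
    Function.Injective (ky L p) := by
  rintro ⟨i, t⟩ ⟨i', t'⟩ h
  obtain ⟨h1, h2⟩ := enc_inj h
  have h3 : i = i' := Fin.ext (hp _ _ i.2 i'.2 h1)
  subst h3
  have h4 : t = t' := kd_inj h2
  rw [h4]

theorem card_RR {L : ℕ} {p : ℕ → Cell n δ} (hp : ∀ i j, i < L → j < L → p i = p j → i = j) :
    (RR L p).card = Fintype.card (Fin L × Ix) := by
  rw [RR, Finset.card_image_of_injective _ (ky_inj hp), Finset.card_univ]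

theorem mem_RR {L : ℕ} {p : ℕ → Cell n δ} {ρ : Finset (Vx n δ)} :
    ρ ∈ RR L p ↔ ∃ j, ky L p j = ρ := by
  simp [RR]

theorem nc_RR {L : ℕ} {p : ℕ → Cell n δ} {ρ : Finset (Vx n δ)} (h : NC ρ) : ρ ∉ RR L p := by
  intro h1
  obtain ⟨j, hj⟩ := mem_RR.1 h1
  exact h _ _ hj.symm

theorem v1_RR {L : ℕ} {p : ℕ → Cell n δ} {i : ℕ} :
    enc (p i) (Kd.V1 1) ∉ RR L p := by
  intro h1
  obtain ⟨j, hj⟩ := mem_RR.1 h1
  exact kd_ne1 (enc_inj hj).2

theorem v2_RR {L : ℕ} {p : ℕ → Cell n δ} (hp : ∀ i j, i < L → j < L → p i = p j → i = j)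
    {i : ℕ} (hi : i < L) : enc (p i) (Kd.V2 (bin i)) ∉ RR L p := by
  intro h1
  obtain ⟨⟨k, t⟩, hj⟩ := mem_RR.1 h1
  obtain ⟨h2, h3⟩ := enc_inj hj
  have h4 : k.val = i := hp _ _ k.2 hi h2
  simp only at h3
  rw [h4] at h3
  exact kd_ne2 h3

/-! ### triples -/

/-- a triple with a suffix -/
noncomputable def tri (x y z : Vx n δ) (S : Fin δ → Fin n) : Finset (Vx n δ) :=
  insert x (insert y (insert z (sf S)))

theorem sf_lt {z : Vx n δ} (hz : code z ≤ 7 * n) {S : Fin δ → Fin n} {w : Vx n δ} (hw : w ∈ sf S) :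
    z < w := by
  obtain ⟨j, rfl⟩ := mem_sf.1 hw
  rw [vlt]
  have := code_bounds (Vx.s j (S j))
  simp only at this
  omega

theorem tri_card {x y z : Vx n δ} (hxy : x < y) (hyz : y < z) (hz : code z ≤ 7 * n)
    (S : Fin δ → Fin n) : (tri x y z S).card = δ + 1 + 2 := by
  rw [tri, Finset.card_insert_of_notMem, Finset.card_insert_of_notMem,
    Finset.card_insert_of_notMem, card_sf]
  · intro h
    exact lt_irrefl _ (sf_lt hz h)
  · intro h
    rcases Finset.mem_insert.1 h with h | h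
    · exact hyz.ne h
    · exact lt_irrefl _ (hyz.trans (sf_lt hz h))
  · intro h
    rcases Finset.mem_insert.1 h with h | h
    · exact hxy.ne h
    · rcases Finset.mem_insert.1 h with h | h
      · exact (hxy.trans hyz).ne h
      · exact lt_irrefl _ ((hxy.trans hyz).trans (sf_lt hz h))

theorem code_ne_v0 {x : Vx n δ} (h : code x ≤ 7 * n) : x ≠ Vx.v0 := by
  rintro rfl
  simp only [code] at h
  omega

theorem code_ne_s {x : Vx n δ} (h : code x ≤ 7 * n) (j : Fin δ) (a : Fin n) : x ≠ Vx.s j a := by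
  rintro rfl
  simp only [code] at h
  omega

theorem tri_v0 {x y z : Vx n δ} (hxy : x < y) (hyz : y < z) (hz : code z ≤ 7 * n)
    (S : Fin δ → Fin n) : Vx.v0 ∉ tri x y z S := by
  rw [vlt] at hxy hyz
  intro h
  rw [tri] at h
  rcases Finset.mem_insert.1 h with h | h
  · exact code_ne_v0 (by omega) h.symm
  · rcases Finset.mem_insert.1 h with h | h
    · exact code_ne_v0 (by omega) h.symm
    · rcases Finset.mem_insert.1 h with h | h
      · exact code_ne_v0 (by omega) h.symm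
      · obtain ⟨j, h⟩ := mem_sf.1 h
        simp at h

variable {M : Type} [AddCommGroup M]

theorem rel_tri {h : Finset (Vx n δ) → M} (h0 : ∀ ρ, NC ρ → h ρ = 0) {x y z : Vx n δ}
    (hxy : x < y) (hyz : y < z) (hz : code z ≤ 7 * n) (S : Fin δ → Fin n) :
    Rel h (tri x y z S) = h (insert y (insert z (sf S))) - h (insert x (insert z (sf S))) +
      h (insert x (insert y (sf S))) := by
  refine rel3 h hxy hyz (fun w hw => sf_lt hz hw) (fun w hw => h0 _ ?_)
  obtain ⟨j, rfl⟩ := mem_sf.1 hw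
  rw [vlt] at hxy hyz
  refine nc_miss j fun a ha => ?_
  obtain ⟨h1, h2⟩ := Finset.mem_erase.1 ha
  rcases Finset.mem_insert.1 h2 with h2 | h2
  · exact code_ne_s (by omega) j a h2.symm
  · rcases Finset.mem_insert.1 h2 with h2 | h2
    · exact code_ne_s (by omega) j a h2.symm
    · rcases Finset.mem_insert.1 h2 with h2 | h2
      · exact code_ne_s (by omega) j a h2.symm
      · obtain ⟨j', h3⟩ := mem_sf.1 h2
        simp only [Vx.s.injEq] at h3
        obtain ⟨rfl, h3⟩ := h3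
        exact h1 (by rw [h3])

theorem t1_code {T : Fin 3} {a : Fin n} : code (Vx.t1 T a : Vx n δ) < 3 * n :=
  code_bounds (Vx.t1 T a : Vx n δ)

theorem vv_code {f : Fin (2 * n)} :
    3 * n ≤ code (Vx.vv f : Vx n δ) ∧ code (Vx.vv f : Vx n δ) < 5 * n :=
  code_bounds (Vx.vv f : Vx n δ)

theorem t2_code {b : Bool} {a : Fin n} :
    5 * n ≤ code (Vx.t2 b a : Vx n δ) ∧ code (Vx.t2 b a : Vx n δ) < 7 * n :=
  code_bounds (Vx.t2 b a : Vx n δ)

theorem t1_lt_t1 {T T' : Fin 3} {a : Fin n} (h : T < T') :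
    (Vx.t1 T a : Vx n δ) < Vx.t1 T' a := by
  rw [vlt]
  simp only [code]
  have := Nat.mul_lt_mul_of_pos_right (show T.val < T'.val from h) a.pos
  omega

theorem t1_lt_vv {T : Fin 3} {a : Fin n} {f : Fin (2 * n)} :
    (Vx.t1 T a : Vx n δ) < Vx.vv f := by
  rw [vlt]
  have := @t1_code n δ T a
  have := @vv_code n δ f
  omega

theorem t1_lt_t2 {T : Fin 3} {a : Fin n} {b : Bool} {a' : Fin n} :
    (Vx.t1 T a : Vx n δ) < Vx.t2 b a' := by
  rw [vlt]
  have := @t1_code n δ T a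
  have := @t2_code n δ b a'
  omega

theorem vv_lt_t2 {f : Fin (2 * n)} {b : Bool} {a' : Fin n} :
    (Vx.vv f : Vx n δ) < Vx.t2 b a' := by
  rw [vlt]
  have := @vv_code n δ f
  have := @t2_code n δ b a'
  omega

theorem t2_lt_t2 {a : Fin n} :
    (Vx.t2 false a : Vx n δ) < Vx.t2 true a := by
  rw [vlt]
  simp only [code, Bool.toNat_false, Bool.toNat_true]
  have := a.2
  omega

theorem t2_lt_q {b : Bool} {a' : Fin n} :
    (Vx.t2 b a' : Vx n δ) < Vx.q := by
  rw [vlt]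
  have := @t2_code n δ b a'
  simp only [code] at *
  omega

theorem t2_le {b : Bool} {a' : Fin n} : code (Vx.t2 b a' : Vx n δ) ≤ 7 * n :=
  (@t2_code n δ b a').2.le

theorem q_le : code (Vx.q : Vx n δ) ≤ 7 * n := le_refl _

theorem q_tri {h : Finset (Vx n δ) → M} (h0 : ∀ ρ, NC ρ → h ρ = 0) (T : Fin 3) (b : Bool)
    (c : Cell n δ) :
    Rel h (tri (Vx.t1 T c.1) (Vx.t2 b c.2.1) Vx.q c.2.2) = h (enc c (Kd.P T b)) := by
  rw [rel_tri h0 t1_lt_t2 t2_lt_q q_le]
  rw [h0 _ (nc_q (ρ := insert (Vx.t2 b c.2.1) (insert Vx.q (sf c.2.2))) (by simp)),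
    h0 _ (nc_q (ρ := insert (Vx.t1 T c.1) (insert Vx.q (sf c.2.2))) (by simp)), sub_zero, zero_add]
  rfl

theorem t2_tri {h : Finset (Vx n δ) → M} (h0 : ∀ ρ, NC ρ → h ρ = 0) (T : Fin 3) (b : Bool)
    (c : Cell n δ) :
    Rel h (tri (Vx.t1 T c.1) (Vx.t2 false c.2.1) (Vx.t2 true c.2.1) c.2.2) = 0 ↔
      h (enc c (Kd.P T b)) = h (enc c (Kd.P T (!b))) := by
  rw [rel_tri h0 t1_lt_t2 t2_lt_t2 t2_le]
  rw [h0 _ (nc_t2 (b := false) (b' := true) (a := c.2.1) (a' := c.2.1)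
    (ρ := insert (Vx.t2 false c.2.1) (insert (Vx.t2 true c.2.1) (sf c.2.2))) (by simp) (by simp)
    (Or.inl (by simp))), zero_sub, neg_add_eq_zero]
  have e1 : ∀ b, insert (Vx.t1 T c.1) (insert (Vx.t2 b c.2.1) (sf c.2.2)) = enc c (Kd.P T b) :=
    fun b => rfl
  rw [e1, e1]
  cases b
  · exact eq_comm
  · exact Iff.rfl

/-! ### links -/

theorem link_gen {V : Type} [LinearOrder V] (h : Finset V → M) {x y : V} {E : Finset V}
    (hxy : x ≠ y) (hE : ∀ z ∈ E, (z < x ∧ z < y) ∨ (x < z ∧ y < z))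
    (hz : ∀ z ∈ E, h ((insert x (insert y E)).erase z) = 0) :
    Rel h (insert x (insert y E)) = 0 ↔ h (insert x E) = h (insert y E) := by
  rcases lt_or_gt_of_ne hxy with h1 | h1
  · rw [rel2 h h1 (fun z hz => (hE z hz).imp (fun h => h.1) (fun h => h.2)) hz]
    rw [(neg_one_pow_zsmul_eq_zero_iff _ _), sub_eq_zero, eq_comm]
  · rw [Finset.insert_comm]
    rw [rel2 h h1 (fun z hz => (hE z hz).imp (fun h => h.2) (fun h => h.1))
      (fun z hz' => by rw [Finset.insert_comm]; exact hz z hz')]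
    rw [(neg_one_pow_zsmul_eq_zero_iff _ _), sub_eq_zero]
where
  neg_one_pow_zsmul_eq_zero_iff (k : ℕ) (m : M) : ((-1 : ℤ) ^ k) • m = 0 ↔ m = 0 := by
    rcases neg_one_pow_eq_or ℤ k with h | h <;> rw [h] <;> simp

theorem link_aux {h : Finset (Vx n δ) → M} (h0 : ∀ ρ, NC ρ → h ρ = 0) {x y : Vx n δ}
    {E : Finset (Vx n δ)} (hxy : x ≠ y)
    (hE : ∀ z ∈ E, (z < x ∧ z < y) ∨ (x < z ∧ y < z))
    (hnc : ∀ ρ, x ∈ ρ → y ∈ ρ → NC ρ) (hc : (insert x E).card = δ + 2) :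
    (Rel h (insert x E ∪ insert y E) = 0 ↔ h (insert x E) = h (insert y E)) ∧
      (insert x E ∪ insert y E).card = δ + 1 + 2 := by
  have hx : x ∉ E := by
    intro h
    rcases hE x h with h | h
    · exact lt_irrefl _ h.1
    · exact lt_irrefl _ h.1
  have hy : y ∉ E := by
    intro h
    rcases hE y h with h | h
    · exact lt_irrefl _ h.2
    · exact lt_irrefl _ h.2
  have e1 : insert x E ∪ insert y E = insert x (insert y E) := by
    ext z
    simp only [Finset.mem_union, Finset.mem_insert]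
    tauto
  rw [e1]
  refine ⟨link_gen h hxy hE fun z hz => h0 _ (hnc _ ?_ ?_), ?_⟩
  · exact Finset.mem_erase.2 ⟨fun h => hx (by rw [h]; exact hz), Finset.mem_insert_self _ _⟩
  · exact Finset.mem_erase.2 ⟨fun h => hy (by rw [h]; exact hz),
      Finset.mem_insert_of_mem (Finset.mem_insert_self _ _)⟩
  · rw [Finset.card_insert_of_notMem hx] at hc
    rw [Finset.card_insert_of_notMem, Finset.card_insert_of_notMem hy]
    · omega
    · intro h
      rcases Finset.mem_insert.1 h with h | h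
      · exact hxy h
      · exact hx h

theorem s_lt_s {j i : Fin δ} (h : j < i) {a a' : Fin n} :
    (Vx.s j a : Vx n δ) < Vx.s i a' := by
  rw [vlt]
  simp only [code]
  have := dig_lt (show j.val < i.val from h) a.2
  omega

theorem low_lt_s {x : Vx n δ} (hx : code x ≤ 7 * n) {j : Fin δ} {a : Fin n} : x < Vx.s j a := by
  rw [vlt]
  have := code_bounds (Vx.s j a)
  simp only at this
  omega

theorem link {h : Finset (Vx n δ) → M} (h0 : ∀ ρ, NC ρ → h ρ = 0) {c c' : Cell n δ}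
    (hadj : Adjc c c') (T : Fin 3) (b : Bool) :
    (Rel h (enc c (Kd.P T b) ∪ enc c' (Kd.P T b)) = 0 ↔
      h (enc c (Kd.P T b)) = h (enc c' (Kd.P T b))) ∧
      (enc c (Kd.P T b) ∪ enc c' (Kd.P T b)).card = δ + 1 + 2 := by
  obtain ⟨a, a', S⟩ := c
  obtain ⟨a2, a2', S2⟩ := c'
  have hcard := enc_card (a, a', S) (Kd.P T b)
  rcases hadj with ⟨h1, h2⟩ | ⟨h1, h2⟩
  · simp only at h1 h2
    simp only [Prod.mk.injEq] at h2
    obtain ⟨rfl, rfl⟩ := h2
    refine link_aux h0 (x := Vx.t1 T a) (y := Vx.t1 T a2) (E := insert (Vx.t2 b a') (sf S)) ?_ ?_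
      ?_ hcard
    · intro h
      simp only [Vx.t1.injEq] at h
      exact h1 h.2
    · intro z hz
      right
      rcases Finset.mem_insert.1 hz with rfl | hz
      · exact ⟨t1_lt_t2, t1_lt_t2⟩
      · have := @t1_code n δ T a
        have := @t1_code n δ T a2
        exact ⟨sf_lt (by omega) hz, sf_lt (by omega) hz⟩
    · intro ρ hx hy
      exact nc_t1 hx hy (Or.inr h1)
  · simp only at h1 h2
    subst h1
    rcases h2 with ⟨h1, h2⟩ | ⟨h1, h2⟩
    · simp only at h1 h2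
      subst h2
      have e1 : ∀ (u : Fin n), enc (a, u, S) (Kd.P T b) =
          insert (Vx.t2 b u) (insert (Vx.t1 T a) (sf S)) := by
        intro u
        rw [enc, Finset.insert_comm]
      rw [e1, e1]
      rw [e1] at hcard
      refine link_aux h0 ?_ ?_ ?_ hcard
      · intro h
        simp only [Vx.t2.injEq] at h
        exact h1 h.2
      · intro z hz
        rcases Finset.mem_insert.1 hz with rfl | hz
        · exact Or.inl ⟨t1_lt_t2, t1_lt_t2⟩
        · exact Or.inr ⟨sf_lt t2_le hz, sf_lt t2_le hz⟩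
      · intro ρ hx hy
        exact nc_t2 hx hy (Or.inr h1)
    · simp only at h1 h2
      subst h1
      obtain ⟨j, h3, h4⟩ := h2
      obtain ⟨C, hC, hS, hS2⟩ : ∃ C : Finset (Vx n δ), (∀ z ∈ C, ∃ i a, i ≠ j ∧ z = Vx.s i a) ∧
          sf S = insert (Vx.s j (S j)) C ∧ sf S2 = insert (Vx.s j (S2 j)) C := by
        refine ⟨(univ.erase j).image (fun i => Vx.s i (S i)), ?_, ?_, ?_⟩
        · intro z hz
          obtain ⟨i, hi, rfl⟩ := Finset.mem_image.1 hz
          exact ⟨i, S i, (Finset.mem_erase.1 hi).1, rfl⟩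
        · ext z
          rw [mem_sf, Finset.mem_insert, Finset.mem_image]
          constructor
          · rintro ⟨i, rfl⟩
            by_cases hi : i = j
            · left; rw [hi]
            · right; exact ⟨i, Finset.mem_erase.2 ⟨hi, Finset.mem_univ _⟩, rfl⟩
          · rintro (rfl | ⟨i, _, rfl⟩)
            · exact ⟨j, rfl⟩
            · exact ⟨i, rfl⟩
        · ext z
          rw [mem_sf, Finset.mem_insert, Finset.mem_image]
          constructor
          · rintro ⟨i, rfl⟩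
            by_cases hi : i = j
            · left; rw [hi]
            · right; exact ⟨i, Finset.mem_erase.2 ⟨hi, Finset.mem_univ _⟩, by rw [h4 i hi]⟩
          · rintro (rfl | ⟨i, hi, rfl⟩)
            · exact ⟨j, rfl⟩
            · exact ⟨i, by rw [h4 i (Finset.mem_erase.1 hi).1]⟩
      have e1 : ∀ (u : Vx n δ), insert (Vx.t1 T a) (insert (Vx.t2 b a') (insert u C)) =
          insert u (insert (Vx.t1 T a) (insert (Vx.t2 b a') C)) := by
        intro u
        rw [Finset.insert_comm _ u, Finset.insert_comm _ u]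
      have f1 : enc (a, a', S) (Kd.P T b) =
          insert (Vx.s j (S j)) (insert (Vx.t1 T a) (insert (Vx.t2 b a') C)) := by
        rw [enc, hS, e1]
      have f2 : enc (a, a', S2) (Kd.P T b) =
          insert (Vx.s j (S2 j)) (insert (Vx.t1 T a) (insert (Vx.t2 b a') C)) := by
        rw [enc, hS2, e1]
      rw [f1, f2]
      rw [f1] at hcard
      refine link_aux h0 ?_ ?_ ?_ hcard
      · intro h
        simp only [Vx.s.injEq] at h
        exact h3 h.2
      · intro z hz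
        rcases Finset.mem_insert.1 hz with rfl | hz
        · have := @t1_code n δ T a
          exact Or.inl ⟨low_lt_s (by omega), low_lt_s (by omega)⟩
        · rcases Finset.mem_insert.1 hz with rfl | hz
          · exact Or.inl ⟨low_lt_s t2_le, low_lt_s t2_le⟩
          · obtain ⟨i, u, hi, rfl⟩ := hC z hz
            rcases lt_or_gt_of_ne hi with hi | hi
            · exact Or.inl ⟨s_lt_s hi, s_lt_s hi⟩
            · exact Or.inr ⟨s_lt_s hi, s_lt_s hi⟩
      · intro ρ hx hy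
        exact nc_s hx hy h3

/-! ### the relations -/

/-- the next position, cyclically -/
def nx (L i : ℕ) : ℕ := if i + 1 < L then i + 1 else 0

/-- the simplices carrying the relations -/
noncomputable def ph (L : ℕ) (ε e : ℕ → Bool) (p : ℕ → Cell n δ) (i : ℕ) : Ix → Finset (Vx n δ)
  | Ix.i0 => tri (Vx.t1 0 (p i).1) (Vx.t1 1 (p i).1) (Vx.t2 (bin i) (p i).2.1) (p i).2.2
  | Ix.i1 => tri (Vx.t1 1 (p i).1) (Vx.t2 false (p i).2.1) (Vx.t2 true (p i).2.1) (p i).2.2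
  | Ix.i2 => tri (Vx.t1 1 (p i).1) (Vx.vv (vs (p i).1 (p i).2.1)) (Vx.t2 (!bin i) (p i).2.1)
      (p i).2.2
  | Ix.i3 => tri (Vx.t1 0 (p i).1) (Vx.vv (vs (p i).1 (p i).2.1)) (Vx.t2 (bin i) (p i).2.1)
      (p i).2.2
  | Ix.i4 => tri (Vx.t1 0 (p i).1) (Vx.vv (vs (p i).1 (p i).2.1)) (Vx.t2 (!bin i) (p i).2.1)
      (p i).2.2
  | Ix.i5 => tri (Vx.t1 2 (p i).1) (Vx.vv (vs (p i).1 (p i).2.1)) (Vx.t2 (bin i) (p i).2.1)
      (p i).2.2
  | Ix.i6 => if ε i then
      tri (Vx.t1 2 (p i).1) (Vx.vv (vs (p i).1 (p i).2.1)) (Vx.t2 (!bin i) (p i).2.1) (p i).2.2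
      else tri (Vx.t1 2 (p i).1) (Vx.t2 false (p i).2.1) (Vx.t2 true (p i).2.1) (p i).2.2
  | Ix.i7 => if e i then tri (Vx.t1 2 (p i).1) (Vx.t2 (!bin i) (p i).2.1) Vx.q (p i).2.2
      else enc (p i) (Kd.P 0 (!bin i)) ∪ enc (p (i + 1)) (Kd.P 0 (!bin i))
  | Ix.i8 => if e i then
      tri (Vx.t1 2 (p (nx L i)).1) (Vx.t2 (bin (nx L i)) (p (nx L i)).2.1) Vx.q (p (nx L i)).2.2
      else enc (p i) (Kd.P 2 (!bin i)) ∪ enc (p (i + 1)) (Kd.P 2 (!bin i))

/-- the relations in terms of the values -/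
def FP (L : ℕ) (ε e : ℕ → Bool) (H : ℕ → Ix → M) (i : ℕ) : Ix → Prop
  | Ix.i0 => H i Ix.i2 = H i Ix.i0
  | Ix.i1 => H i Ix.i2 = H i Ix.i3
  | Ix.i2 => H i Ix.i8 = H i Ix.i3
  | Ix.i3 => H i Ix.i6 = H i Ix.i0
  | Ix.i4 => H i Ix.i8 + H i Ix.i6 = H i Ix.i1
  | Ix.i5 => H i Ix.i7 = H i Ix.i4
  | Ix.i6 => if ε i then H i Ix.i8 + H i Ix.i7 = H i Ix.i5 else H i Ix.i4 = H i Ix.i5
  | Ix.i7 => if e i then H i Ix.i5 = 0 else H i Ix.i1 = H (i + 1) Ix.i0
  | Ix.i8 => if e i then H (nx L i) Ix.i4 = 0 else H i Ix.i5 = H (i + 1) Ix.i4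

theorem ph_card {L : ℕ} {ε e : ℕ → Bool} {p : ℕ → Cell n δ} {i : ℕ}
    (hadj : e i = false → Adjc (p i) (p (i + 1))) (t : Ix) :
    (ph L ε e p i t).card = δ + 1 + 2 := by
  cases t
  case i0 => exact tri_card (t1_lt_t1 (by decide)) t1_lt_t2 t2_le _
  case i1 => exact tri_card t1_lt_t2 t2_lt_t2 t2_le _
  case i2 => exact tri_card t1_lt_vv vv_lt_t2 t2_le _
  case i3 => exact tri_card t1_lt_vv vv_lt_t2 t2_le _
  case i4 => exact tri_card t1_lt_vv vv_lt_t2 t2_le _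
  case i5 => exact tri_card t1_lt_vv vv_lt_t2 t2_le _
  case i6 =>
    rw [ph]
    split_ifs
    · exact tri_card t1_lt_vv vv_lt_t2 t2_le _
    · exact tri_card t1_lt_t2 t2_lt_t2 t2_le _
  case i7 =>
    rw [ph]
    split_ifs with h
    · exact tri_card t1_lt_t2 t2_lt_q q_le _
    · exact (link (M := ℤ) (h := fun _ => 0) (fun _ _ => rfl) (hadj (by simpa using h)) 0 _).2
  case i8 =>
    rw [ph]
    split_ifs with h
    · exact tri_card t1_lt_t2 t2_lt_q q_le _
    · exact (link (M := ℤ) (h := fun _ => 0) (fun _ _ => rfl) (hadj (by simpa using h)) 2 _).2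

theorem ph_v0 {L : ℕ} {ε e : ℕ → Bool} {p : ℕ → Cell n δ} {i : ℕ} (t : Ix) :
    Vx.v0 ∉ ph L ε e p i t := by
  cases t
  case i0 => exact tri_v0 (t1_lt_t1 (by decide)) t1_lt_t2 t2_le _
  case i1 => exact tri_v0 t1_lt_t2 t2_lt_t2 t2_le _
  case i2 => exact tri_v0 t1_lt_vv vv_lt_t2 t2_le _
  case i3 => exact tri_v0 t1_lt_vv vv_lt_t2 t2_le _
  case i4 => exact tri_v0 t1_lt_vv vv_lt_t2 t2_le _
  case i5 => exact tri_v0 t1_lt_vv vv_lt_t2 t2_le _
  case i6 =>
    rw [ph]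
    split_ifs
    · exact tri_v0 t1_lt_vv vv_lt_t2 t2_le _
    · exact tri_v0 t1_lt_t2 t2_lt_t2 t2_le _
  case i7 =>
    rw [ph]
    split_ifs with h
    · exact tri_v0 t1_lt_t2 t2_lt_q q_le _
    · rw [Finset.mem_union]
      rintro (h | h)
      · exact v0_mem h
      · exact v0_mem h
  case i8 =>
    rw [ph]
    split_ifs with h
    · exact tri_v0 t1_lt_t2 t2_lt_q q_le _
    · rw [Finset.mem_union]
      rintro (h | h)
      · exact v0_mem h
      · exact v0_mem h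

theorem ph_rel {L : ℕ} {ε e : ℕ → Bool} {p : ℕ → Cell n δ}
    (hp : ∀ i j, i < L → j < L → p i = p j → i = j) {h : Finset (Vx n δ) → M}
    (hh : ∀ ρ, ρ ∉ RR L p → h ρ = 0) {i : ℕ} (hi : i < L)
    (hadj : e i = false → Adjc (p i) (p (i + 1))) (t : Ix) :
    Rel h (ph L ε e p i t) = 0 ↔ FP L ε e (fun i t => h (enc (p i) (kd i t))) i t := by
  have h0 : ∀ ρ, NC ρ → h ρ = 0 := fun ρ hρ => hh ρ (nc_RR hρ)
  have e1 : ∀ (T : Fin 3) b, insert (Vx.t1 T (p i).1) (insert (Vx.t2 b (p i).2.1) (sf (p i).2.2)) =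
    enc (p i) (Kd.P T b) := fun _ _ => rfl
  have e2 : ∀ (T : Fin 3), insert (Vx.t1 T (p i).1)
      (insert (Vx.vv (vs (p i).1 (p i).2.1)) (sf (p i).2.2)) = enc (p i) (Kd.V1 T) := fun _ => rfl
  have e3 : ∀ b, insert (Vx.vv (vs (p i).1 (p i).2.1))
      (insert (Vx.t2 b (p i).2.1) (sf (p i).2.2)) = enc (p i) (Kd.V2 b) := fun _ => rfl
  cases t
  case i0 =>
    rw [ph, rel_tri h0 (t1_lt_t1 (by decide)) t1_lt_t2 t2_le, e1, e1,
      h0 _ (nc_t1 (T := 0) (T' := 1) (a := (p i).1) (a' := (p i).1)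
        (ρ := insert (Vx.t1 0 (p i).1) (insert (Vx.t1 1 (p i).1) (sf (p i).2.2))) (by simp)
        (by simp) (Or.inl (by decide))), add_zero, sub_eq_zero]
    exact Iff.rfl
  case i1 =>
    rw [ph, t2_tri h0 1 (bin i)]
    exact Iff.rfl
  case i2 =>
    rw [ph, rel_tri h0 t1_lt_vv vv_lt_t2 t2_le, e1, e2, e3, hh _ v1_RR, add_zero, sub_eq_zero]
    exact Iff.rfl
  case i3 =>
    rw [ph, rel_tri h0 t1_lt_vv vv_lt_t2 t2_le, e1, e2, e3, hh _ (v2_RR hp hi), zero_sub,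
      neg_add_eq_zero, eq_comm]
    exact Iff.rfl
  case i4 =>
    rw [ph, rel_tri h0 t1_lt_vv vv_lt_t2 t2_le, e1, e2, e3, sub_add_eq_add_sub, sub_eq_zero]
    exact Iff.rfl
  case i5 =>
    rw [ph, rel_tri h0 t1_lt_vv vv_lt_t2 t2_le, e1, e2, e3, hh _ (v2_RR hp hi), zero_sub,
      neg_add_eq_zero, eq_comm]
    exact Iff.rfl
  case i6 =>
    rw [ph, FP]
    split_ifs with hε
    · rw [rel_tri h0 t1_lt_vv vv_lt_t2 t2_le, e1, e2, e3, sub_add_eq_add_sub, sub_eq_zero]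
      exact Iff.rfl
    · rw [t2_tri h0 2 (bin i)]
      exact Iff.rfl
  case i7 =>
    rw [ph, FP]
    split_ifs with he
    · rw [q_tri h0]
      exact Iff.rfl
    · rw [(link h0 (hadj (by simpa using he)) 0 _).1]
      simp only [kd]
      rw [bin_succ]
  case i8 =>
    rw [ph, FP]
    split_ifs with he
    · rw [q_tri h0]
      exact Iff.rfl
    · rw [(link h0 (hadj (by simpa using he)) 2 _).1]
      simp only [kd]
      rw [bin_succ]

end Pool.Agent.V11212.Tor
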