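import Mathlib

/-!
# Simplicial homology of finite complexes on linearly ordered vertex sets
-/

set_option autoImplicit false

namespace Pool.Agent.V11212.Tor

section
variable {V : Type} [Fintype V] [LinearOrder V]

/-- `K` is a finite simplicial complex with vertex set `V`. -/
structure IsComplex (K : Set (Finset V)) : Prop where
  nonempty : ∀ s ∈ K, s.Nonempty
  down : ∀ s ∈ K, ∀ t ⊆ s, t.Nonempty → t ∈ K
  vertex : ∀ v : V, {v} ∈ K

/-- `K` has dimension `d`. -/
def HasDim (K : Set (Finset V)) (d : ℕ) : Prop :=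
  (∀ s ∈ K, s.card ≤ d + 1) ∧ ∃ s ∈ K, s.card = d + 1

/-- The (augmented) simplicial boundary of a family `c` of coefficients, for the given order of
the vertices: the coefficient at `t` is the sum over `v ∉ t` of `(-1) ^ i` times the coefficient
of `c` at `t ∪ {v}`, where `v` is the `i`-th vertex (counting from `0`) of `t ∪ {v}`. -/
def bdry {k : Type} [CommRing k] (c : Finset V → k) (t : Finset V) : k :=
  ∑ v, if v ∈ t then 0 else (-1) ^ (t.filter (fun u => u < v)).card * c (insert v t)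

/-- `c` is a `q`-chain of `K`: a family of coefficients supported on the `q`-simplices. -/
def IsChain {k : Type} [CommRing k] (K : Set (Finset V)) (q : ℕ) (c : Finset V → k) : Prop :=
  ∀ s, c s ≠ 0 → s ∈ K ∧ s.card = q + 1

/-- All reduced rational homology groups vanish. -/
def RatAcyclic (K : Set (Finset V)) : Prop :=
  ∀ (q : ℕ) (z : Finset V → ℚ), IsChain K q z → bdry z = 0 →
    ∃ w : Finset V → ℚ, IsChain K (q + 1) w ∧ bdry w = z

theorem bdry_add {k : Type} [CommRing k] (c c' : Finset V → k) :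
    bdry (c + c') = bdry c + bdry c' := by
  funext t
  simp only [bdry, Pi.add_apply]
  rw [← Finset.sum_add_distrib]
  refine Finset.sum_congr rfl fun v _ => ?_
  split_ifs
  · simp
  · ring

theorem bdry_zero {k : Type} [CommRing k] : bdry (0 : Finset V → k) = 0 := by
  funext t; simp [bdry]

theorem bdry_neg {k : Type} [CommRing k] (c : Finset V → k) : bdry (-c) = - bdry c := by
  funext t
  simp only [bdry, Pi.neg_apply]
  rw [← Finset.sum_neg_distrib]
  refine Finset.sum_congr rfl fun v _ => ?_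
  split_ifs
  · simp
  · ring

/-- the cycles -/
def IsCyc (K : Set (Finset V)) (q : ℕ) (c : Finset V → ℤ) : Prop := IsChain K q c ∧ bdry c = 0

/-- the boundaries -/
def IsBnd (K : Set (Finset V)) (q : ℕ) (c : Finset V → ℤ) : Prop :=
  ∃ w, IsChain K (q + 1) w ∧ bdry w = c

theorem IsCyc.zero {K : Set (Finset V)} {q : ℕ} : IsCyc K q 0 :=
  ⟨fun _ h => absurd rfl h, bdry_zero⟩

theorem IsCyc.add {K : Set (Finset V)} {q : ℕ} {a b : Finset V → ℤ} (h : IsCyc K q a)
    (h' : IsCyc K q b) : IsCyc K q (a + b) := by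
  obtain ⟨ha, ha'⟩ := h
  obtain ⟨hb, hb'⟩ := h'
  refine ⟨fun s h => ?_, by rw [bdry_add, ha', hb', add_zero]⟩
  by_cases h1 : a s = 0
  · refine hb s (fun h2 => h ?_)
    simp [h1, h2]
  · exact ha s h1

theorem IsCyc.neg {K : Set (Finset V)} {q : ℕ} {a : Finset V → ℤ} (h : IsCyc K q a) :
    IsCyc K q (-a) := by
  obtain ⟨ha, ha'⟩ := h
  exact ⟨fun s h => ha s (fun h1 => h (by simp [h1])), by rw [bdry_neg, ha', neg_zero]⟩

theorem IsBnd.zero {K : Set (Finset V)} {q : ℕ} : IsBnd K q 0 :=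
  ⟨0, fun _ h => absurd rfl h, bdry_zero⟩

theorem IsBnd.add {K : Set (Finset V)} {q : ℕ} {a b : Finset V → ℤ} (h : IsBnd K q a)
    (h' : IsBnd K q b) : IsBnd K q (a + b) := by
  obtain ⟨w, hw, rfl⟩ := h
  obtain ⟨w', hw', rfl⟩ := h'
  refine ⟨w + w', fun s h => ?_, bdry_add _ _⟩
  by_cases h1 : w s = 0
  · refine hw' s (fun h2 => h ?_)
    simp [h1, h2]
  · exact hw s h1

theorem IsBnd.neg {K : Set (Finset V)} {q : ℕ} {a : Finset V → ℤ} (h : IsBnd K q a) :
    IsBnd K q (-a) := by
  obtain ⟨w, hw, rfl⟩ := h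
  exact ⟨-w, fun s h => hw s (fun h1 => h (by simp [h1])), bdry_neg _⟩

/-- The integral `q`-cycles (for `q ≥ 1` the augmentation plays no role). -/
def Cyc (K : Set (Finset V)) (q : ℕ) : AddSubgroup (Finset V → ℤ) where
  carrier := {c | IsCyc K q c}
  zero_mem' := IsCyc.zero
  add_mem' := IsCyc.add
  neg_mem' := IsCyc.neg

/-- The integral `q`-boundaries. -/
def Bnd (K : Set (Finset V)) (q : ℕ) : AddSubgroup (Finset V → ℤ) where
  carrier := {c | IsBnd K q c}
  zero_mem' := IsBnd.zero
  add_mem' := IsBnd.add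
  neg_mem' := IsBnd.neg

/-- The integral homology group `H_q(K)` (for `q ≥ 1`) is isomorphic to `G`: there is a
homomorphism from the group of integral `q`-cycles onto `G` whose kernel is the group of integral
`q`-boundaries. -/
def HomologyIs (K : Set (Finset V)) (q : ℕ) (G : Type) [AddCommGroup G] : Prop :=
  ∃ θ : (Finset V → ℤ) → G, (∀ a b, IsCyc K q a → IsCyc K q b → θ (a + b) = θ a + θ b) ∧
    (∀ x, ∃ z, IsCyc K q z ∧ θ z = x) ∧ ∀ z, IsCyc K q z → (θ z = 0 ↔ IsBnd K q z)

/-- The integral homology group `H_q(K)` (for `q ≥ 1`): cycles modulo boundaries. -/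
def Hom (K : Set (Finset V)) (q : ℕ) : Type := Cyc K q ⧸ (Bnd K q).addSubgroupOf (Cyc K q)

instance (K : Set (Finset V)) (q : ℕ) : AddCommGroup (Hom K q) :=
  inferInstanceAs (AddCommGroup (Cyc K q ⧸ (Bnd K q).addSubgroupOf (Cyc K q)))

end

end Pool.Agent.V11212.Tor
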