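import Mathlib

/-!
Hamiltonian paths (Gray codes) in grids.
-/

set_option autoImplicit false

namespace Pool.Agent.V11212.Tor

section snake
variable {α β : Type}

/-- boustrophedon -/
def snake : List α → List β → List (α × β)
  | [], _ => []
  | a :: la, lb => lb.map (fun b => (a, b)) ++ snake la lb.reverse

/-- product relation -/
def PR (r : α → α → Prop) (s : β → β → Prop) (p q : α × β) : Prop :=
  (r p.1 q.1 ∧ p.2 = q.2) ∨ (p.1 = q.1 ∧ s p.2 q.2)

theorem mem_snake (la : List α) : ∀ (lb : List β) (p : α × β),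
    p ∈ snake la lb ↔ p.1 ∈ la ∧ p.2 ∈ lb := by
  induction la with
  | nil => intro lb p; simp [snake]
  | cons a la ih =>
    rintro lb ⟨x, y⟩
    rw [snake, List.mem_append, ih, List.mem_map, List.mem_cons]
    simp only [Prod.mk.injEq, List.mem_reverse]
    constructor
    · rintro (⟨b, hb, rfl, rfl⟩ | ⟨h1, h2⟩)
      · exact ⟨Or.inl rfl, hb⟩
      · exact ⟨Or.inr h1, h2⟩
    · rintro ⟨rfl | h1, h2⟩
      · exact Or.inl ⟨y, h2, rfl, rfl⟩
      · exact Or.inr ⟨h1, h2⟩

theorem nodup_snake (la : List α) : ∀ (lb : List β), la.Nodup → lb.Nodup → (snake la lb).Nodup := by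
  induction la with
  | nil => intro lb _ _; simp [snake]
  | cons a la ih =>
    intro lb ha hb
    rw [List.nodup_cons] at ha
    rw [snake, List.nodup_append]
    refine ⟨hb.map (fun x y h => by simpa using h), ih _ ha.2 (List.nodup_reverse.2 hb), ?_⟩
    rintro p hp q hq rfl
    obtain ⟨b, _, rfl⟩ := List.mem_map.1 hp
    exact ha.1 ((mem_snake la _ _).1 hq).1

theorem head_snake (a : α) (la : List α) (lb : List β) (hb : lb ≠ []) :
    (snake (a :: la) lb).head? = lb.head?.map (fun b => (a, b)) := by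
  rw [snake, List.head?_append, List.head?_map]
  cases lb with
  | nil => exact absurd rfl hb
  | cons b lb => rfl

theorem chain_snake {r : α → α → Prop} {s : β → β → Prop} (hs : ∀ x y, s x y → s y x)
    (la : List α) : ∀ (lb : List β), lb ≠ [] → la.IsChain r → lb.IsChain s →
      (snake la lb).IsChain (PR r s) := by
  induction la with
  | nil => intro lb _ _ _; simp [snake]
  | cons a la ih =>
    intro lb hb ha hlb
    rw [snake, List.isChain_append]
    refine ⟨?_, ?_, ?_⟩
    · rw [List.isChain_map]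
      exact hlb.imp fun x y h => Or.inr ⟨rfl, h⟩
    · refine ih _ (by simpa using hb) ?_ ?_
      · cases la with
        | nil => exact List.isChain_nil
        | cons a' la => exact (List.isChain_cons_cons.1 ha).2
      · rw [List.isChain_reverse]
        exact hlb.imp fun x y h => hs _ _ h
    · intro p hp q hq
      cases la with
      | nil => simp [snake] at hq
      | cons a' la =>
        rw [head_snake a' la _ (by simpa using hb), List.head?_reverse] at hq
        rw [List.getLast?_map] at hp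
        obtain ⟨b, hb1, rfl⟩ := Option.map_eq_some_iff.1 hp
        obtain ⟨b', hb2, rfl⟩ := Option.map_eq_some_iff.1 hq
        rw [hb1] at hb2
        rw [Option.some.inj hb2]
        exact Or.inl ⟨(List.isChain_cons_cons.1 ha).1, rfl⟩

end snake

/-- there is a Hamiltonian path -/
def Ham (α : Type) (r : α → α → Prop) : Prop :=
  ∃ l : List α, l.Nodup ∧ (∀ x, x ∈ l) ∧ l.IsChain r

theorem Ham.prod {α β : Type} [Nonempty β] {r : α → α → Prop} {s : β → β → Prop}
    (hs : ∀ x y, s x y → s y x) (h1 : Ham α r) (h2 : Ham β s) : Ham (α × β) (PR r s) := by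
  obtain ⟨la, a1, a2, a3⟩ := h1
  obtain ⟨lb, b1, b2, b3⟩ := h2
  refine ⟨snake la lb, nodup_snake la lb a1 b1, fun p => (mem_snake la lb p).2 ⟨a2 _, b2 _⟩,
    chain_snake hs la lb ?_ a3 b3⟩
  rintro rfl
  obtain ⟨b⟩ := (inferInstance : Nonempty β)
  exact absurd (b2 b) (by simp)

theorem Ham.map {α β : Type} {r : α → α → Prop} {s : β → β → Prop} (f : α → β)
    (hf : Function.Bijective f) (hr : ∀ x y, r x y → s (f x) (f y)) (h : Ham α r) : Ham β s := by
  obtain ⟨l, a1, a2, a3⟩ := h
  refine ⟨l.map f, a1.map hf.1, fun y => ?_, ?_⟩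
  · obtain ⟨x, rfl⟩ := hf.2 y
    exact List.mem_map.2 ⟨x, a2 x, rfl⟩
  · rw [List.isChain_map]
    exact a3.imp hr

theorem Ham.fin (n : ℕ) : Ham (Fin n) (fun a b => a ≠ b) := by
  refine ⟨List.finRange n, List.nodup_finRange n, List.mem_finRange, ?_⟩
  exact List.Pairwise.isChain (List.nodup_finRange n)

/-- functions differing in exactly one place -/
def RF {n δ : ℕ} (S S' : Fin δ → Fin n) : Prop := ∃ j, S j ≠ S' j ∧ ∀ i, i ≠ j → S i = S' i

theorem RF.symm {n δ : ℕ} {S S' : Fin δ → Fin n} (h : RF S S') : RF S' S := by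
  obtain ⟨j, h1, h2⟩ := h
  exact ⟨j, h1.symm, fun i hi => (h2 i hi).symm⟩

theorem Ham.fn (n : ℕ) (hn : 0 < n) (δ : ℕ) : Ham (Fin δ → Fin n) RF := by
  induction δ with
  | zero =>
    refine ⟨[Fin.elim0], by simp, fun x => ?_, by simp⟩
    rw [List.mem_singleton]
    exact Subsingleton.elim _ _
  | succ δ ih =>
    haveI : Nonempty (Fin δ → Fin n) := ⟨fun _ => ⟨0, hn⟩⟩
    refine Ham.map (fun p : Fin n × (Fin δ → Fin n) => (Fin.cons p.1 p.2 : Fin (δ + 1) → Fin n))
      ⟨?_, ?_⟩ ?_ (Ham.prod (fun x y => RF.symm) (Ham.fin n) ih)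
    · rintro ⟨a, S⟩ ⟨a', S'⟩ h
      have h1 := congrFun h 0
      have h2 : ∀ j : Fin δ, S j = S' j := fun j => by
        have := congrFun h j.succ
        simpa using this
      simp only [Fin.cons_zero] at h1
      rw [h1, funext h2]
    · intro f
      exact ⟨(f 0, fun j => f j.succ), by
        funext i
        refine Fin.cases rfl (fun j => rfl) i⟩
    · rintro ⟨a, S⟩ ⟨a', S'⟩ (⟨h1, h2⟩ | ⟨h1, j, h2, h3⟩)
      · simp only at h1 h2
        subst h2
        refine ⟨0, by simpa using h1, fun i hi => ?_⟩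
        refine Fin.cases (fun h => absurd rfl h) (fun j _ => rfl) i hi
      · simp only at h1
        subst h1
        refine ⟨j.succ, by simpa using h2, fun i hi => ?_⟩
        refine Fin.cases (fun _ => rfl) (fun i hi => ?_) i hi
        have : i ≠ j := fun h => hi (by rw [h])
        simpa using h3 i this

/-- cells of the grid -/
abbrev Cell (n δ : ℕ) : Type := Fin n × Fin n × (Fin δ → Fin n)

/-- adjacent cells differ in exactly one coordinate -/
def Adjc {n δ : ℕ} : Cell n δ → Cell n δ → Prop :=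
  PR (fun a b => a ≠ b) (PR (fun a b => a ≠ b) RF)

theorem gray (n : ℕ) (hn : 0 < n) (δ L : ℕ) (hL : L ≤ n ^ (δ + 2)) :
    ∃ p : ℕ → Cell n δ, (∀ i j, i < L → j < L → p i = p j → i = j) ∧
      ∀ i, i + 1 < L → Adjc (p i) (p (i + 1)) := by
  haveI : Nonempty (Fin δ → Fin n) := ⟨fun _ => ⟨0, hn⟩⟩
  haveI : Nonempty (Fin n) := ⟨⟨0, hn⟩⟩
  have h1 : Ham (Cell n δ) Adjc := by
    refine Ham.prod ?_ (Ham.fin n) (Ham.prod (fun x y => RF.symm) (Ham.fin n) (Ham.fn n hn δ))
    rintro x y (⟨h1, h2⟩ | ⟨h1, h2⟩)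
    · exact Or.inl ⟨h1.symm, h2.symm⟩
    · exact Or.inr ⟨h1.symm, h2.symm⟩
  obtain ⟨l, a1, a2, a3⟩ := h1
  have hlen : l.length = n ^ (δ + 2) := by
    classical
    have h2 : l.toFinset = Finset.univ := by
      ext x; simp [a2 x]
    rw [← List.toFinset_card_of_nodup a1, h2, Finset.card_univ]
    simp only [Fintype.card_prod, Fintype.card_fin, Fintype.card_fun]
    ring
  refine ⟨fun i => if h : i < l.length then l[i] else (⟨0, hn⟩, ⟨0, hn⟩, fun _ => ⟨0, hn⟩), ?_, ?_⟩
  · intro i j hi hj h
    simp only [dif_pos (show i < l.length by omega), dif_pos (show j < l.length by omega)] at h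
    exact (List.Nodup.getElem_inj_iff a1).1 h
  · intro i hi
    simp only [dif_pos (show i < l.length by omega), dif_pos (show i + 1 < l.length by omega)]
    exact List.isChain_iff_getElem.1 a3 i (by omega)

end Pool.Agent.V11212.Tor
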