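import Pool.Agent.V11212.Tor.Build

/-!
Assembling the complex.
-/

set_option autoImplicit false

namespace Pool.Agent.V11212.Tor

open Finset

/-- the values given by a tape -/
def val {G : Type} [AddCommGroup G] {L : ℕ} (T : Tape G L) (i : ℕ) : Ix → G
  | Ix.i0 => T.X i
  | Ix.i1 => T.X i + T.X i
  | Ix.i2 => T.X i
  | Ix.i3 => T.X i
  | Ix.i4 => T.Y i
  | Ix.i5 => T.Y i + if T.ε i then T.X i else 0
  | Ix.i6 => T.X i
  | Ix.i7 => T.Y i
  | Ix.i8 => T.X i

theorem lt_of_e {G : Type} [AddCommGroup G] {L : ℕ} (T : Tape G L) {i : ℕ} (hi : i < L)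
    (h : T.e i = false) : i + 1 < L := by
  by_contra h1
  have h2 : i = L - 1 := by omega
  rw [h2, T.last] at h
  exact Bool.noConfusion h

theorem FP_congr {M : Type} [AddCommGroup M] {L : ℕ} {ε e : ℕ → Bool} {H H' : ℕ → Ix → M}
    (hHH : ∀ i, i < L → ∀ t, H i t = H' i t) (hL : 0 < L) {i : ℕ} (hi : i < L)
    (he : e i = false → i + 1 < L) (t : Ix) (h : FP L ε e H i t) : FP L ε e H' i t := by
  have hn : nx L i < L := by
    unfold nx
    split_ifs with h
    · exact h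
    · exact hL
  cases t
  case i7 =>
    rw [FP] at h ⊢
    split_ifs at h ⊢ with h1
    · rw [← hHH i hi, h]
    · rw [← hHH i hi, ← hHH (i + 1) (he (by simpa using h1)), h]
  case i8 =>
    rw [FP] at h ⊢
    split_ifs at h ⊢ with h1
    · rw [← hHH _ hn, h]
    · rw [← hHH i hi, ← hHH (i + 1) (he (by simpa using h1)), h]
  all_goals
    simp only [FP] at h ⊢
    simp only [← hHH i hi]
    exact h

theorem val_FP {G : Type} [AddCommGroup G] {L : ℕ} (T : Tape G L) {i : ℕ} (hi : i < L) (t : Ix) :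
    FP L T.ε T.e (val T) i t := by
  cases t
  case i6 =>
    rw [FP]
    split_ifs with h
    · simp only [val]
      rw [if_pos h, add_comm]
    · simp only [val]
      rw [if_neg h, add_zero]
  case i7 =>
    rw [FP]
    split_ifs with h
    · exact T.rel.close i hi h
    · have h' : T.e i = false := by simpa using h
      exact (T.rel.x_next i (lt_of_e T hi h') h').symm
  case i8 =>
    rw [FP]
    split_ifs with h
    · simp only [val, nx]
      split_ifs with h1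
      · exact T.rel.y_start i h1 h
      · exact T.rel.y_zero
    · have h' : T.e i = false := by simpa using h
      exact (T.rel.y_next i (lt_of_e T hi h') h').symm
  all_goals rfl

theorem trel_of_FP {G : Type} [AddCommGroup G] {L : ℕ} (T : Tape G L) {M : Type} [AddCommGroup M]
    {H : ℕ → Ix → M} (hF : ∀ i, i < L → ∀ t, FP L T.ε T.e H i t) :
    TRel L T.ε T.e (fun i => H i Ix.i0) (fun i => H i Ix.i4) ∧
      ∀ i, i < L → H i Ix.i1 = H i Ix.i0 + H i Ix.i0 ∧ H i Ix.i2 = H i Ix.i0 ∧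
        H i Ix.i3 = H i Ix.i0 ∧ (H i Ix.i5 = H i Ix.i4 + if T.ε i then H i Ix.i0 else 0) ∧
        H i Ix.i6 = H i Ix.i0 ∧ H i Ix.i7 = H i Ix.i4 ∧ H i Ix.i8 = H i Ix.i0 := by
  have key : ∀ i, i < L → H i Ix.i1 = H i Ix.i0 + H i Ix.i0 ∧ H i Ix.i2 = H i Ix.i0 ∧
        H i Ix.i3 = H i Ix.i0 ∧ (H i Ix.i5 = H i Ix.i4 + if T.ε i then H i Ix.i0 else 0) ∧
        H i Ix.i6 = H i Ix.i0 ∧ H i Ix.i7 = H i Ix.i4 ∧ H i Ix.i8 = H i Ix.i0 := by
    intro i hi
    have f0 : H i Ix.i2 = H i Ix.i0 := hF i hi Ix.i0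
    have f1 : H i Ix.i2 = H i Ix.i3 := hF i hi Ix.i1
    have f2 : H i Ix.i8 = H i Ix.i3 := hF i hi Ix.i2
    have f3 : H i Ix.i6 = H i Ix.i0 := hF i hi Ix.i3
    have f4 : H i Ix.i8 + H i Ix.i6 = H i Ix.i1 := hF i hi Ix.i4
    have f5 : H i Ix.i7 = H i Ix.i4 := hF i hi Ix.i5
    have f6 := hF i hi Ix.i6
    rw [FP] at f6
    have g3 : H i Ix.i3 = H i Ix.i0 := f1.symm.trans f0
    have g8 : H i Ix.i8 = H i Ix.i0 := f2.trans g3
    refine ⟨?_, f0, g3, ?_, f3, f5, g8⟩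
    · rw [← f4, g8, f3]
    · split_ifs at f6 ⊢ with h
      · rw [← f6, g8, f5, add_comm]
      · rw [← f6, add_zero]
  refine ⟨⟨?_, ?_, ?_, ?_, ?_⟩, key⟩
  · intro c hc he
    have f7 := hF c (by omega) Ix.i7
    rw [FP, if_neg (by rw [he]; simp)] at f7
    rw [← f7, (key c (by omega)).1]
  · intro c hc he
    have f8 := hF c (by omega) Ix.i8
    rw [FP, if_neg (by rw [he]; simp)] at f8
    rw [← f8, (key c (by omega)).2.2.2.1]
  · intro c hc he
    have f7 := hF c (by omega) Ix.i7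
    rw [FP, if_pos he] at f7
    exact (key c (by omega)).2.2.2.1.symm.trans f7
  · intro c hc he
    have f8 := hF c (by omega) Ix.i8
    rw [FP, if_pos he, nx, if_pos hc] at f8
    exact f8
  · have hL := T.pos
    have f8 := hF (L - 1) (by omega) Ix.i8
    rw [FP, if_pos T.last, nx, if_neg (by omega)] at f8
    exact f8

variable {n δ : ℕ}

/-- the function on simplices determined by values -/
noncomputable def ex {G : Type} [AddCommGroup G] (L : ℕ) (p : ℕ → Cell n δ) (w : ℕ → Ix → G)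
    (ρ : Finset (Vx n δ)) : G := ∑ j : Fin L × Ix, if ky L p j = ρ then w j.1 j.2 else 0

theorem ex_ky {G : Type} [AddCommGroup G] {L : ℕ} {p : ℕ → Cell n δ}
    (hp : ∀ i j, i < L → j < L → p i = p j → i = j) (w : ℕ → Ix → G) (j : Fin L × Ix) :
    ex L p w (ky L p j) = w j.1 j.2 := by
  rw [ex, Finset.sum_eq_single j, if_pos rfl]
  · intro j' _ h
    rw [if_neg (fun h1 => h (ky_inj hp h1))]
  · intro h; exact absurd (Finset.mem_univ _) h

theorem ex_zero {G : Type} [AddCommGroup G] {L : ℕ} {p : ℕ → Cell n δ} (w : ℕ → Ix → G)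
    {ρ : Finset (Vx n δ)} (h : ρ ∉ RR L p) : ex L p w ρ = 0 := by
  rw [ex]
  refine Finset.sum_eq_zero fun j _ => if_neg fun h1 => h (mem_RR.2 ⟨j, h1⟩)

theorem the_dat {G : Type} [AddCommGroup G] {L : ℕ} (T : Tape G L) (p : ℕ → Cell n δ)
    (hp : ∀ i j, i < L → j < L → p i = p j → i = j)
    (hadj : ∀ i, i + 1 < L → Adjc (p i) (p (i + 1))) :
    Dat (J := Fin L × Ix) (Vx.v0 : Vx n δ) (δ + 1) (RR L p)
      (fun j => ph L T.ε T.e p j.1 j.2) G (ex L p (val T)) where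
  hR := by
    intro ρ hρ
    obtain ⟨j, rfl⟩ := mem_RR.1 hρ
    exact ⟨enc_card _ _, v0_mem⟩
  hφ := fun j => ⟨ph_card (fun h => hadj _ (lt_of_e T j.1.2 h)) j.2, ph_v0 j.2⟩
  hJ := (card_RR hp).symm
  hg0 := fun ρ hρ => ex_zero _ hρ
  hrel := by
    rintro ⟨i, t⟩
    refine (ph_rel hp (fun ρ hρ => ex_zero _ hρ) i.2 (fun h => hadj _ (lt_of_e T i.2 h)) t).2 ?_
    refine FP_congr (H := val T) (fun i' hi' t' => ?_) T.pos i.2 (lt_of_e T i.2) t
      (val_FP T i.2 t)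
    exact (ex_ky hp (val T) (⟨i', hi'⟩, t')).symm
  huniv := by
    intro M _ h hh hr
    have hF : ∀ i, i < L → ∀ t, FP L T.ε T.e (fun i t => h (enc (p i) (kd i t))) i t := by
      intro i hi t
      exact (ph_rel hp hh hi (fun h => hadj _ (lt_of_e T hi h)) t).1 (hr (⟨i, hi⟩, t))
    obtain ⟨h1, h2⟩ := trel_of_FP T hF
    obtain ⟨ψ, hψ⟩ := T.univ M _ _ h1
    refine ⟨ψ, fun ρ => ?_⟩
    by_cases hρ : ρ ∈ RR L p
    · obtain ⟨⟨⟨i, hi⟩, t⟩, rfl⟩ := mem_RR.1 hρ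
      rw [ex_ky hp]
      obtain ⟨k1, k2, k3, k5, k6, k7, k8⟩ := h2 i hi
      obtain ⟨ψX, ψY⟩ := hψ i hi
      cases t
      case i0 => exact ψX
      case i1 => exact ((map_add ψ _ _).trans (by rw [ψX])).trans k1.symm
      case i2 => exact ψX.trans k2.symm
      case i3 => exact ψX.trans k3.symm
      case i4 => exact ψY
      case i5 =>
        refine Eq.trans ?_ k5.symm
        simp only [val]
        rw [map_add, ψY]
        split_ifs
        · rw [ψX]
        · rw [map_zero]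
      case i6 => exact ψX.trans k6.symm
      case i7 => exact ψY.trans k7.symm
      case i8 => exact ψX.trans k8.symm
    · rw [ex_zero _ hρ, map_zero, hh ρ hρ]
  hgen := by
    rw [← top_le_iff, ← T.gen, AddSubgroup.closure_le]
    rintro x ⟨c, hc, rfl⟩
    refine AddSubgroup.subset_closure ⟨ky L p (⟨c, hc⟩, Ix.i0), ?_⟩
    rw [ex_ky hp]
    rfl

theorem isComplex_Cx {V : Type} [Fintype V] [LinearOrder V] {J : Type} (v0 : V) (D : ℕ)
    (R : Finset (Finset V)) (φ : J → Finset V) : IsComplex (Cx v0 D R φ) := by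
  refine ⟨?_, ?_, ?_⟩
  · rintro s (⟨h1, h2⟩ | ⟨h1, h2⟩)
    · exact h1
    · exact Finset.card_pos.1 (by omega)
  · rintro s hs t hts ht
    rcases hs with ⟨h1, h2⟩ | ⟨h1, h2⟩
    · exact Or.inl ⟨ht, (Finset.card_le_card hts).trans h2⟩
    · rcases eq_or_ne t s with rfl | hne
      · exact Or.inr ⟨h1, h2⟩
      · left
        have := Finset.card_lt_card (lt_of_le_of_ne hts hne)
        exact ⟨ht, by omega⟩
  · intro v
    exact Or.inl ⟨Finset.singleton_nonempty v, by simp⟩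

theorem hasDim_Cx {V : Type} [Fintype V] [LinearOrder V] {J : Type} (v0 : V) (D : ℕ)
    (R : Finset (Finset V)) (φ : J → Finset V) (j : J) (hj : (φ j).card = D + 2) :
    HasDim (Cx v0 D R φ) (D + 1) := by
  refine ⟨?_, φ j, Or.inr ⟨hj, Or.inr ⟨j, rfl⟩⟩, hj⟩
  rintro s (⟨h1, h2⟩ | ⟨h1, h2⟩)
  · omega
  · omega

theorem main (d : ℕ) (hd : 2 ≤ d) : ∃ C : ℝ, 0 < C ∧
    ∀ (G : Type) [AddCommGroup G] [Finite G] [Nontrivial G],
      ∃ (V : Type) (_ : Fintype V) (_ : LinearOrder V) (K : Set (Finset V)),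
        IsComplex K ∧ HasDim K d ∧ RatAcyclic K ∧ HomologyIs K (d - 1) G ∧
          (Fintype.card V : ℝ) ≤ C * Real.log (Nat.card G) ^ ((1 : ℝ) / d) := by
  obtain ⟨δ, rfl⟩ : ∃ δ, d = δ + 2 := ⟨d - 2, by omega⟩
  have hl2 : (0 : ℝ) < Real.log 2 := Real.log_pos (by norm_num)
  refine ⟨(9 + δ) * (2 * (2 / Real.log 2)), by positivity, ?_⟩
  intro G _ _ _
  obtain ⟨L, hL, ⟨T⟩⟩ := exists_tape G
  have hLpos := T.pos
  have hex : ∃ n : ℕ, L ≤ n ^ (δ + 2) := ⟨L, Nat.le_self_pow (by omega) L⟩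
  classical
  obtain ⟨n, hn1, hn2⟩ : ∃ n : ℕ, L ≤ n ^ (δ + 2) ∧ (n - 1) ^ (δ + 2) < L := by
    refine ⟨Nat.find hex, Nat.find_spec hex, ?_⟩
    by_cases h : Nat.find hex = 0
    · rw [h]; simpa using hLpos
    · exact not_le.1 (Nat.find_min hex (by omega))
  have hn0 : 0 < n := by
    by_contra h
    have : n = 0 := by omega
    subst this
    simp at hn1
    omega
  obtain ⟨p, hp, hadj⟩ := gray n hn0 δ L hn1
  have hdat := the_dat T p hp hadj
  refine ⟨Vx n δ, inferInstance, inferInstance, _, isComplex_Cx _ _ _ _,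
    hasDim_Cx _ _ _ _ (⟨0, hLpos⟩, Ix.i0) (hdat.hφ _).1, rat_acyclic hdat,
    homology_is hdat, ?_⟩
  -- the number of vertices
  set N : ℝ := Real.log (Nat.card G) with hN
  have hG : 1 < Nat.card G := Finite.one_lt_card
  have hN0 : 0 < N := Real.log_pos (by exact_mod_cast hG)
  have hLN : (L : ℝ) ≤ 2 / Real.log 2 * N := by
    have h1 : ((2 : ℝ) ^ L) ≤ (Nat.card G : ℝ) ^ 2 := by exact_mod_cast hL
    have h2 := Real.log_le_log (by positivity) h1
    rw [Real.log_pow, Real.log_pow] at h2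
    push_cast at h2
    rw [div_mul_eq_mul_div, le_div_iff₀ hl2]
    exact h2
  have hn3 : ((n - 1 : ℕ) : ℝ) ≤ (L : ℝ) ^ ((1 : ℝ) / (δ + 2 : ℕ)) := by
    rw [one_div, Real.le_rpow_inv_iff_of_pos (by positivity) (by positivity) (by positivity),
      Real.rpow_natCast]
    exact_mod_cast hn2.le
  have hr : (1 : ℝ) ≤ (L : ℝ) ^ ((1 : ℝ) / (δ + 2 : ℕ)) :=
    Real.one_le_rpow (by exact_mod_cast hLpos) (by positivity)
  have hn4 : (n : ℝ) ≤ 2 * (L : ℝ) ^ ((1 : ℝ) / (δ + 2 : ℕ)) := by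
    have : (n : ℝ) = ((n - 1 : ℕ) : ℝ) + 1 := by
      rw [Nat.cast_sub hn0]; push_cast; ring
    linarith
  have h2l : (1 : ℝ) ≤ 2 / Real.log 2 := by
    rw [le_div_iff₀ hl2]
    have := Real.log_two_lt_d9
    linarith
  have hn5 : (L : ℝ) ^ ((1 : ℝ) / (δ + 2 : ℕ)) ≤ 2 / Real.log 2 * N ^ ((1 : ℝ) / (δ + 2 : ℕ)) := by
    calc (L : ℝ) ^ ((1 : ℝ) / (δ + 2 : ℕ)) ≤ (2 / Real.log 2 * N) ^ ((1 : ℝ) / (δ + 2 : ℕ)) :=
          Real.rpow_le_rpow (by positivity) hLN (by positivity)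
      _ = (2 / Real.log 2) ^ ((1 : ℝ) / (δ + 2 : ℕ)) * N ^ ((1 : ℝ) / (δ + 2 : ℕ)) :=
          Real.mul_rpow (by positivity) hN0.le
      _ ≤ (2 / Real.log 2) * N ^ ((1 : ℝ) / (δ + 2 : ℕ)) := by
          refine mul_le_mul_of_nonneg_right ?_ (by positivity)
          have h3 : (1 : ℝ) / (δ + 2 : ℕ) ≤ 1 := by
            rw [div_le_one (by positivity)]
            push_cast
            have : (0 : ℝ) ≤ δ := by positivity
            linarith
          calc (2 / Real.log 2) ^ ((1 : ℝ) / (δ + 2 : ℕ)) ≤ (2 / Real.log 2) ^ (1 : ℝ) :=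
                Real.rpow_le_rpow_of_exponent_le h2l h3
            _ = 2 / Real.log 2 := Real.rpow_one _
  have hcard : (Fintype.card (Vx n δ) : ℝ) ≤ (9 + δ) * n := by
    have h1 : (Fintype.card (Vx n δ) : ℝ) ≤ (7 + δ) * n + 2 := by exact_mod_cast card_Vx
    have h2 : (1 : ℝ) ≤ n := by exact_mod_cast hn0
    nlinarith
  calc (Fintype.card (Vx n δ) : ℝ) ≤ (9 + δ) * n := hcard
    _ ≤ (9 + δ) * (2 * (2 / Real.log 2 * N ^ ((1 : ℝ) / (δ + 2 : ℕ)))) := by
        refine mul_le_mul_of_nonneg_left ?_ (by positivity)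
        linarith
    _ = _ := by ring

end Pool.Agent.V11212.Tor
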