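import Pool.Agent.V11212.Tor.Abs
import Pool.Agent.V11212.Tor.Gray

/-!
The vertices of the construction, their order, and the coded simplices.
-/

set_option autoImplicit false

namespace Pool.Agent.V11212.Tor

open Finset

/-- The vertices. -/
inductive Vx (n δ : ℕ) : Type
  | t1 (T : Fin 3) (a : Fin n)
  | vv (f : Fin (2 * n))
  | t2 (b : Bool) (a : Fin n)
  | q
  | s (j : Fin δ) (a : Fin n)
  | v0

variable {n δ : ℕ}

/-- position of a vertex -/
def code : Vx n δ → ℕ
  | Vx.t1 T a => T.val * n + a.val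
  | Vx.vv f => 3 * n + f.val
  | Vx.t2 b a => 5 * n + (b.toNat * n + a.val)
  | Vx.q => 7 * n
  | Vx.s j a => 7 * n + 1 + (j.val * n + a.val)
  | Vx.v0 => 7 * n + 1 + δ * n

theorem dig_lt {i a k n : ℕ} (hi : i < k) (ha : a < n) : i * n + a < k * n := by
  have : (i + 1) * n ≤ k * n := Nat.mul_le_mul_right n hi
  rw [add_mul, one_mul] at this
  omega

theorem dig_inj {i a i' a' n : ℕ} (ha : a < n) (ha' : a' < n) (h : i * n + a = i' * n + a') :
    i = i' ∧ a = a' := by
  rcases lt_trichotomy i i' with h1 | h1 | h1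
  · have := dig_lt h1 ha; omega
  · subst h1; exact ⟨rfl, by omega⟩
  · have := dig_lt h1 ha'; omega

theorem code_bounds (x : Vx n δ) : match x with
    | Vx.t1 T a => code (Vx.t1 T a : Vx n δ) < 3 * n
    | Vx.vv f => 3 * n ≤ code (Vx.vv f : Vx n δ) ∧ code (Vx.vv f : Vx n δ) < 5 * n
    | Vx.t2 b a => 5 * n ≤ code (Vx.t2 b a : Vx n δ) ∧ code (Vx.t2 b a : Vx n δ) < 7 * n
    | Vx.q => code (Vx.q : Vx n δ) = 7 * n
    | Vx.s j a => 7 * n < code (Vx.s j a : Vx n δ) ∧
        code (Vx.s j a : Vx n δ) < 7 * n + 1 + δ * n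
    | Vx.v0 => code (Vx.v0 : Vx n δ) = 7 * n + 1 + δ * n := by
  rcases x with ⟨T, a⟩ | f | ⟨b, a⟩ | _ | ⟨j, a⟩ | _
  · exact dig_lt T.2 a.2
  · have := f.2
    simp only [code]
    omega
  · have h1 : b.toNat < 2 := by cases b <;> simp
    have h2 := dig_lt h1 a.2
    simp only [code]
    omega
  · rfl
  · have := dig_lt j.2 a.2
    simp only [code]
    omega
  · rfl

theorem code_inj : Function.Injective (code : Vx n δ → ℕ) := by
  intro x y h
  have hx := code_bounds x
  have hy := code_bounds y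
  rcases x with ⟨T, a⟩ | f | ⟨b, a⟩ | _ | ⟨j, a⟩ | _ <;>
    rcases y with ⟨T', a'⟩ | f' | ⟨b', a'⟩ | _ | ⟨j', a'⟩ | _ <;>
    simp only at hx hy
  case t1.t1 =>
    obtain ⟨h1, h2⟩ := dig_inj a.2 a'.2 h
    rw [Fin.ext h1, Fin.ext h2]
  case vv.vv =>
    simp only [code] at h
    rw [Fin.ext (show f.val = f'.val by omega)]
  case t2.t2 =>
    simp only [code] at h
    obtain ⟨h1, h2⟩ := dig_inj a.2 a'.2 (Nat.add_left_cancel h)
    rw [Fin.ext h2, show b = b' by cases b <;> cases b' <;> simp_all]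
  case s.s =>
    simp only [code] at h
    obtain ⟨h1, h2⟩ := dig_inj a.2 a'.2 (Nat.add_left_cancel h)
    rw [Fin.ext h1, Fin.ext h2]
  case q.q => rfl
  case v0.v0 => rfl
  all_goals exfalso; omega

noncomputable instance : LinearOrder (Vx n δ) := LinearOrder.lift' code code_inj

theorem vlt {x y : Vx n δ} : x < y ↔ code x < code y := Iff.rfl

theorem code_lt (x : Vx n δ) : code x < (7 + δ) * n + 2 := by
  have hx := code_bounds x
  have e : (7 + δ) * n + 2 = 7 * n + δ * n + 2 := by ring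
  rw [e]
  rcases x with ⟨T, a⟩ | f | ⟨b, a⟩ | _ | ⟨j, a⟩ | _ <;> simp only at hx <;> omega

noncomputable instance : Fintype (Vx n δ) :=
  Fintype.ofInjective (fun x : Vx n δ => (⟨code x, code_lt x⟩ : Fin ((7 + δ) * n + 2)))
    (fun x y h => code_inj (by simpa using h))

theorem card_Vx : Fintype.card (Vx n δ) ≤ (7 + δ) * n + 2 := by
  have := Fintype.card_le_of_injective
    (fun x : Vx n δ => (⟨code x, code_lt x⟩ : Fin ((7 + δ) * n + 2)))
    (fun x y h => code_inj (by simpa using h))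
  rwa [Fintype.card_fin] at this

/-- the suffix -/
noncomputable def sf (S : Fin δ → Fin n) : Finset (Vx n δ) := univ.image (fun j => Vx.s j (S j))

theorem mem_sf {S : Fin δ → Fin n} {x : Vx n δ} : x ∈ sf S ↔ ∃ j, Vx.s j (S j) = x := by
  simp [sf]

theorem card_sf (S : Fin δ → Fin n) : (sf S).card = δ := by
  rw [sf, Finset.card_image_of_injective, Finset.card_univ, Fintype.card_fin]
  intro i j h
  simp only [Vx.s.injEq] at h
  exact h.1

/-- kinds of coded simplices -/
inductive Kd : Type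
  | P (T : Fin 3) (b : Bool)
  | V1 (T : Fin 3)
  | V2 (b : Bool)

/-- the index of the additional vertex -/
def vs (a a' : Fin n) : Fin (2 * n) := ⟨a.val + a'.val, by omega⟩

/-- coded simplices -/
noncomputable def enc (c : Cell n δ) : Kd → Finset (Vx n δ)
  | Kd.P T b => insert (Vx.t1 T c.1) (insert (Vx.t2 b c.2.1) (sf c.2.2))
  | Kd.V1 T => insert (Vx.t1 T c.1) (insert (Vx.vv (vs c.1 c.2.1)) (sf c.2.2))
  | Kd.V2 b => insert (Vx.vv (vs c.1 c.2.1)) (insert (Vx.t2 b c.2.1) (sf c.2.2))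

theorem t1_mem {c : Cell n δ} {κ : Kd} {T : Fin 3} {a : Fin n} :
    Vx.t1 T a ∈ enc c κ ↔ a = c.1 ∧ ((∃ b, κ = Kd.P T b) ∨ κ = Kd.V1 T) := by
  rcases κ with ⟨T', b⟩ | T' | b
  · simp only [enc, Finset.mem_insert, mem_sf]
    constructor
    · rintro (h | h | ⟨j, h⟩)
      · simp only [Vx.t1.injEq] at h
        exact ⟨h.2, Or.inl ⟨b, by rw [h.1]⟩⟩
      · simp at h
      · simp at h
    · rintro ⟨rfl, ⟨b', h⟩ | h⟩
      · simp only [Kd.P.injEq] at h
        left; rw [h.1]
      · simp at h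
  · simp only [enc, Finset.mem_insert, mem_sf]
    constructor
    · rintro (h | h | ⟨j, h⟩)
      · simp only [Vx.t1.injEq] at h
        exact ⟨h.2, Or.inr (by rw [h.1])⟩
      · simp at h
      · simp at h
    · rintro ⟨rfl, ⟨b', h⟩ | h⟩
      · simp at h
      · simp only [Kd.V1.injEq] at h
        left; rw [h]
  · simp only [enc, Finset.mem_insert, mem_sf]
    constructor
    · rintro (h | h | ⟨j, h⟩) <;> simp at h
    · rintro ⟨rfl, ⟨b', h⟩ | h⟩ <;> simp at h

theorem t2_mem {c : Cell n δ} {κ : Kd} {b : Bool} {a : Fin n} :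
    Vx.t2 b a ∈ enc c κ ↔ a = c.2.1 ∧ ((∃ T, κ = Kd.P T b) ∨ κ = Kd.V2 b) := by
  rcases κ with ⟨T', b'⟩ | T' | b'
  · simp only [enc, Finset.mem_insert, mem_sf]
    constructor
    · rintro (h | h | ⟨j, h⟩)
      · simp at h
      · simp only [Vx.t2.injEq] at h
        exact ⟨h.2, Or.inl ⟨T', by rw [h.1]⟩⟩
      · simp at h
    · rintro ⟨rfl, ⟨b', h⟩ | h⟩
      · simp only [Kd.P.injEq] at h
        right; left; rw [h.2]
      · simp at h
  · simp only [enc, Finset.mem_insert, mem_sf]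
    constructor
    · rintro (h | h | ⟨j, h⟩) <;> simp at h
    · rintro ⟨rfl, ⟨b', h⟩ | h⟩ <;> simp at h
  · simp only [enc, Finset.mem_insert, mem_sf]
    constructor
    · rintro (h | h | ⟨j, h⟩)
      · simp at h
      · simp only [Vx.t2.injEq] at h
        exact ⟨h.2, Or.inr (by rw [h.1])⟩
      · simp at h
    · rintro ⟨rfl, ⟨b', h⟩ | h⟩
      · simp at h
      · simp only [Kd.V2.injEq] at h
        right; left; rw [h]

theorem vv_mem {c : Cell n δ} {κ : Kd} {f : Fin (2 * n)} :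
    Vx.vv f ∈ enc c κ ↔ f = vs c.1 c.2.1 ∧ ((∃ T, κ = Kd.V1 T) ∨ ∃ b, κ = Kd.V2 b) := by
  rcases κ with ⟨T', b'⟩ | T' | b'
  · simp only [enc, Finset.mem_insert, mem_sf]
    constructor
    · rintro (h | h | ⟨j, h⟩) <;> simp at h
    · rintro ⟨_, ⟨T, h⟩ | ⟨b, h⟩⟩ <;> simp at h
  · simp only [enc, Finset.mem_insert, mem_sf]
    constructor
    · rintro (h | h | ⟨j, h⟩)
      · simp at h
      · simp only [Vx.vv.injEq] at h
        exact ⟨h, Or.inl ⟨T', rfl⟩⟩
      · simp at h
    · rintro ⟨h, _⟩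
      right; left; rw [h]
  · simp only [enc, Finset.mem_insert, mem_sf]
    constructor
    · rintro (h | h | ⟨j, h⟩)
      · simp only [Vx.vv.injEq] at h
        exact ⟨h, Or.inr ⟨b', rfl⟩⟩
      · simp at h
      · simp at h
    · rintro ⟨h, _⟩
      left; rw [h]

theorem s_mem {c : Cell n δ} {κ : Kd} {j : Fin δ} {a : Fin n} :
    Vx.s j a ∈ enc c κ ↔ a = c.2.2 j := by
  have key : (∃ j', (Vx.s j' (c.2.2 j') : Vx n δ) = Vx.s j a) ↔ a = c.2.2 j := by
    constructor
    · rintro ⟨j', h⟩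
      simp only [Vx.s.injEq] at h
      obtain ⟨rfl, h⟩ := h
      exact h.symm
    · rintro rfl; exact ⟨j, rfl⟩
  rcases κ with ⟨T', b'⟩ | T' | b'
  all_goals
    simp only [enc, Finset.mem_insert, mem_sf, key]
    simp

theorem q_mem {c : Cell n δ} {κ : Kd} : (Vx.q : Vx n δ) ∉ enc c κ := by
  rcases κ with ⟨T', b'⟩ | T' | b' <;> simp [enc, mem_sf]

theorem v0_mem {c : Cell n δ} {κ : Kd} : (Vx.v0 : Vx n δ) ∉ enc c κ := by
  rcases κ with ⟨T', b'⟩ | T' | b' <;> simp [enc, mem_sf]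

theorem enc_card (c : Cell n δ) (κ : Kd) : (enc c κ).card = δ + 2 := by
  rcases κ with ⟨T', b'⟩ | T' | b'
  all_goals
    rw [enc, Finset.card_insert_of_notMem, Finset.card_insert_of_notMem, card_sf]
    · simp [mem_sf]
    · simp [mem_sf]

theorem enc_inj {c c' : Cell n δ} {κ κ' : Kd} (h : enc c κ = enc c' κ') : c = c' ∧ κ = κ' := by
  have hS : c.2.2 = c'.2.2 := by
    funext j
    have h1 : Vx.s j (c.2.2 j) ∈ enc c κ := s_mem.2 rfl
    rw [h] at h1
    exact s_mem.1 h1
  have hfin : ∀ (h1 : c.1 = c'.1) (h2 : c.2.1 = c'.2.1), c = c' := by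
    intro h1 h2
    exact Prod.ext h1 (Prod.ext h2 hS)
  rcases κ with ⟨T, b⟩ | T | b
  · have h1 : Vx.t1 T c.1 ∈ enc c (Kd.P T b) := t1_mem.2 ⟨rfl, Or.inl ⟨b, rfl⟩⟩
    have h2 : Vx.t2 b c.2.1 ∈ enc c (Kd.P T b) := t2_mem.2 ⟨rfl, Or.inl ⟨T, rfl⟩⟩
    rw [h, t1_mem] at h1
    rw [h, t2_mem] at h2
    obtain ⟨e1, ⟨b', f1⟩ | f1⟩ := h1
    · obtain ⟨e2, ⟨T', f2⟩ | f2⟩ := h2
      · rw [f2] at f1
        simp only [Kd.P.injEq] at f1
        exact ⟨hfin e1 e2, by rw [f2, f1.1]⟩
      · rw [f2] at f1; simp at f1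
    · obtain ⟨e2, ⟨T', f2⟩ | f2⟩ := h2 <;> rw [f2] at f1 <;> simp at f1
  · have h1 : Vx.t1 T c.1 ∈ enc c (Kd.V1 T) := t1_mem.2 ⟨rfl, Or.inr rfl⟩
    have h2 : Vx.vv (vs c.1 c.2.1) ∈ enc c (Kd.V1 T) := vv_mem.2 ⟨rfl, Or.inl ⟨T, rfl⟩⟩
    rw [h, t1_mem] at h1
    rw [h, vv_mem] at h2
    obtain ⟨e1, ⟨b', f1⟩ | f1⟩ := h1
    · obtain ⟨e2, ⟨T', f2⟩ | ⟨b2, f2⟩⟩ := h2 <;> rw [f2] at f1 <;> simp at f1
    · refine ⟨hfin e1 ?_, f1.symm⟩
      have := congrArg Fin.val h2.1
      simp only [vs] at this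
      rw [e1] at this
      exact Fin.ext (by omega)
  · have h1 : Vx.t2 b c.2.1 ∈ enc c (Kd.V2 b) := t2_mem.2 ⟨rfl, Or.inr rfl⟩
    have h2 : Vx.vv (vs c.1 c.2.1) ∈ enc c (Kd.V2 b) := vv_mem.2 ⟨rfl, Or.inr ⟨b, rfl⟩⟩
    rw [h, t2_mem] at h1
    rw [h, vv_mem] at h2
    obtain ⟨e1, ⟨b', f1⟩ | f1⟩ := h1
    · obtain ⟨e2, ⟨T', f2⟩ | ⟨b2, f2⟩⟩ := h2 <;> rw [f2] at f1 <;> simp at f1
    · refine ⟨hfin ?_ e1, f1.symm⟩
      have := congrArg Fin.val h2.1
      simp only [vs] at this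
      rw [e1] at this
      exact Fin.ext (by omega)

/-- not a coded simplex -/
def NC (ρ : Finset (Vx n δ)) : Prop := ∀ c κ, ρ ≠ enc c κ

theorem nc_t1 {ρ : Finset (Vx n δ)} {T T' : Fin 3} {a a' : Fin n} (h1 : Vx.t1 T a ∈ ρ)
    (h2 : Vx.t1 T' a' ∈ ρ) (h : T ≠ T' ∨ a ≠ a') : NC ρ := by
  rintro c κ rfl
  obtain ⟨e1, f1⟩ := t1_mem.1 h1
  obtain ⟨e2, f2⟩ := t1_mem.1 h2
  rcases h with h | h
  · apply h
    rcases f1 with ⟨b, rfl⟩ | rfl
    · rcases f2 with ⟨b', f2⟩ | f2
      · simp only [Kd.P.injEq] at f2; exact f2.1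
      · simp at f2
    · rcases f2 with ⟨b', f2⟩ | f2
      · simp at f2
      · simp only [Kd.V1.injEq] at f2; exact f2
  · exact h (e1.trans e2.symm)

theorem nc_t2 {ρ : Finset (Vx n δ)} {b b' : Bool} {a a' : Fin n} (h1 : Vx.t2 b a ∈ ρ)
    (h2 : Vx.t2 b' a' ∈ ρ) (h : b ≠ b' ∨ a ≠ a') : NC ρ := by
  rintro c κ rfl
  obtain ⟨e1, f1⟩ := t2_mem.1 h1
  obtain ⟨e2, f2⟩ := t2_mem.1 h2
  rcases h with h | h
  · apply h
    rcases f1 with ⟨T, rfl⟩ | rfl
    · rcases f2 with ⟨T', f2⟩ | f2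
      · simp only [Kd.P.injEq] at f2; exact f2.2
      · simp at f2
    · rcases f2 with ⟨T', f2⟩ | f2
      · simp at f2
      · simp only [Kd.V2.injEq] at f2; exact f2
  · exact h (e1.trans e2.symm)

theorem nc_q {ρ : Finset (Vx n δ)} (h : Vx.q ∈ ρ) : NC ρ := by
  rintro c κ rfl
  exact q_mem h

theorem nc_miss {ρ : Finset (Vx n δ)} (j : Fin δ) (h : ∀ a, Vx.s j a ∉ ρ) : NC ρ := by
  rintro c κ rfl
  exact h _ (s_mem.2 rfl)

theorem nc_s {ρ : Finset (Vx n δ)} {j : Fin δ} {a a' : Fin n} (h1 : Vx.s j a ∈ ρ)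
    (h2 : Vx.s j a' ∈ ρ) (h : a ≠ a') : NC ρ := by
  rintro c κ rfl
  exact h ((s_mem.1 h1).trans (s_mem.1 h2).symm)

/-! ### relations -/

section rel
variable {V : Type} [LinearOrder V] {M : Type} [AddCommGroup M]

theorem rel3 (h : Finset V → M) {u v w : V} {E : Finset V} (huv : u < v) (hvw : v < w)
    (hE : ∀ z ∈ E, w < z) (hz : ∀ z ∈ E, h ((insert u (insert v (insert w E))).erase z) = 0) :
    Rel h (insert u (insert v (insert w E))) =
      h (insert v (insert w E)) - h (insert u (insert w E)) + h (insert u (insert v E)) := by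
  have hwE : w ∉ E := fun h => lt_irrefl _ (hE w h)
  have hvE : v ∉ insert w E := by
    intro h
    rcases Finset.mem_insert.1 h with h | h
    · exact absurd h hvw.ne
    · exact lt_irrefl _ (hvw.trans (hE v h))
  have huE : u ∉ insert v (insert w E) := by
    intro h
    rcases Finset.mem_insert.1 h with h | h
    · exact absurd h huv.ne
    · rcases Finset.mem_insert.1 h with h | h
      · exact absurd h (huv.trans hvw).ne
      · exact lt_irrefl _ ((huv.trans hvw).trans (hE u h))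
  have hvE' : v ∉ E := fun h => hvE (Finset.mem_insert_of_mem h)
  have huE' : u ∉ E := fun h => huE (Finset.mem_insert_of_mem (Finset.mem_insert_of_mem h))
  rw [Rel, Finset.sum_insert huE, Finset.sum_insert hvE, Finset.sum_insert hwE,
    Finset.sum_eq_zero (s := E) (fun z hzE => by rw [hz z hzE, smul_zero]), add_zero,
    Finset.erase_insert huE]
  have e1 : (insert u (insert v (insert w E))).erase v = insert u (insert w E) := by
    rw [Finset.erase_insert_of_ne huv.ne, Finset.erase_insert hvE]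
  have e2 : (insert u (insert v (insert w E))).erase w = insert u (insert v E) := by
    rw [Finset.erase_insert_of_ne (huv.trans hvw).ne, Finset.erase_insert_of_ne hvw.ne,
      Finset.erase_insert hwE]
  rw [e1, e2]
  have c1 : (filter (fun x => x < u) (insert v (insert w E))).card = 0 := by
    rw [Finset.card_eq_zero, Finset.filter_eq_empty_iff]
    intro x hx
    rcases Finset.mem_insert.1 hx with rfl | hx
    · exact not_lt.2 huv.le
    · rcases Finset.mem_insert.1 hx with rfl | hx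
      · exact not_lt.2 (huv.trans hvw).le
      · exact not_lt.2 ((huv.trans hvw).trans (hE x hx)).le
  have c2 : filter (fun x => x < v) (insert u (insert w E)) = {u} := by
    ext x
    rw [Finset.mem_filter, Finset.mem_singleton]
    constructor
    · rintro ⟨hx, hlt⟩
      rcases Finset.mem_insert.1 hx with h | hx
      · exact h
      · rcases Finset.mem_insert.1 hx with rfl | hx
        · exact absurd hlt (not_lt.2 hvw.le)
        · exact absurd hlt (not_lt.2 (hvw.trans (hE x hx)).le)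
    · rintro rfl; exact ⟨Finset.mem_insert_self _ _, huv⟩
  have c3 : filter (fun x => x < w) (insert u (insert v E)) = {u, v} := by
    ext x
    rw [Finset.mem_filter, Finset.mem_insert (a := x) (b := u) (s := {v}), Finset.mem_singleton]
    constructor
    · rintro ⟨hx, hlt⟩
      rcases Finset.mem_insert.1 hx with h | hx
      · exact Or.inl h
      · rcases Finset.mem_insert.1 hx with h | hx
        · exact Or.inr h
        · exact absurd hlt (not_lt.2 (hE x hx).le)
    · rintro (rfl | rfl)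
      · exact ⟨Finset.mem_insert_self _ _, huv.trans hvw⟩
      · exact ⟨Finset.mem_insert_of_mem (Finset.mem_insert_self _ _), hvw⟩
  rw [c1, c2, c3, Finset.card_singleton, Finset.card_pair huv.ne]
  simp only [pow_zero, one_smul, pow_one, neg_smul]
  rw [show ((-1 : ℤ)) ^ 2 = 1 by norm_num, one_smul]
  abel

theorem rel2 (h : Finset V → M) {x y : V} {E : Finset V} (hxy : x < y)
    (hE : ∀ z ∈ E, z < x ∨ y < z) (hz : ∀ z ∈ E, h ((insert x (insert y E)).erase z) = 0) :
    Rel h (insert x (insert y E)) = ((-1 : ℤ) ^ (filter (fun u => u < x) E).card) •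
      (h (insert y E) - h (insert x E)) := by
  have hyE : y ∉ E := by
    intro h
    rcases hE y h with h | h
    · exact lt_irrefl _ (hxy.trans h)
    · exact lt_irrefl _ h
  have hxE : x ∉ insert y E := by
    intro h
    rcases Finset.mem_insert.1 h with h | h
    · exact absurd h hxy.ne
    · rcases hE x h with h | h
      · exact lt_irrefl _ h
      · exact lt_irrefl _ (hxy.trans h)
  have hxE' : x ∉ E := fun h => hxE (Finset.mem_insert_of_mem h)
  rw [Rel, Finset.sum_insert hxE, Finset.sum_insert hyE,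
    Finset.sum_eq_zero (s := E) (fun z hzE => by rw [hz z hzE, smul_zero]), add_zero,
    Finset.erase_insert hxE]
  have e1 : (insert x (insert y E)).erase y = insert x E := by
    rw [Finset.erase_insert_of_ne hxy.ne, Finset.erase_insert hyE]
  rw [e1]
  have c1 : filter (fun u => u < x) (insert y E) = filter (fun u => u < x) E := by
    rw [Finset.filter_insert, if_neg (not_lt.2 hxy.le)]
  have c2 : filter (fun u => u < y) (insert x E) = insert x (filter (fun u => u < x) E) := by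
    rw [Finset.filter_insert, if_pos hxy]
    congr 1
    refine Finset.filter_congr fun z hz' => ?_
    constructor
    · intro h1
      rcases hE z hz' with h2 | h2
      · exact h2
      · exact absurd h1 (not_lt.2 h2.le)
    · exact fun h1 => h1.trans hxy
  rw [c1, c2, Finset.card_insert_of_notMem (fun h => hxE' (Finset.mem_filter.1 h).1), pow_succ,
    mul_neg_one, neg_smul, smul_sub, sub_eq_add_neg]

end rel

end Pool.Agent.V11212.Tor
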